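import Pool.Agent.H38Z.Nil.Defs

set_option autoImplicit false

namespace Pool.Agent.H38Z.Nil

open Function

variable {X : Type} {C : Cubes X}

/-- Cubes indexed by an arbitrary finite type. -/
def Cube (C : Cubes X) (ι : Type) (c : (ι → Bool) → X) : Prop :=
  ∃ (n : ℕ) (e : ι ≃ Fin n), (fun w : Q n => c (fun i => w (e i))) ∈ C n

/-- Maps of cubes whose coordinates are constants, coordinates or negated coordinates. -/
def Simple {ι κ : Type} (φ : (ι → Bool) → (κ → Bool)) : Prop :=
  ∀ j, (∃ b, ∀ v, φ v j = b) ∨ (∃ i, ∀ v, φ v j = v i) ∨ (∃ i, ∀ v, φ v j = !v i)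

theorem Simple.isCubeMorphism {m n : ℕ} {φ : Q m → Q n} (h : Simple φ) : IsCubeMorphism φ := by
  have h1 : ∀ j, ∃ (a : (Fin m → ℤ) →+ ℤ) (b : ℤ), ∀ v : Q m,
      ((φ v j).toNat : ℤ) = a (fun i => ((v i).toNat : ℤ)) + b := by
    intro j
    rcases h j with ⟨b, hb⟩ | ⟨i, hi⟩ | ⟨i, hi⟩
    · exact ⟨0, (b.toNat : ℤ), fun v => by simp [hb]⟩
    · exact ⟨Pi.evalAddMonoidHom (fun _ => ℤ) i, 0, fun v => by simp [hi]⟩
    · refine ⟨-Pi.evalAddMonoidHom (fun _ => ℤ) i, 1, fun v => ?_⟩
      rw [hi]
      cases hv : v i <;> simp [hv]
  choose a b hab using h1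
  exact ⟨AddMonoidHom.pi a, b, fun v => funext fun j => by simpa using hab j v⟩

theorem Cube.comp (hX : IsNilspace C) {ι κ : Type} [Fintype ι] {c : (κ → Bool) → X}
    (hc : Cube C κ c) {φ : (ι → Bool) → (κ → Bool)} (hφ : Simple φ) : Cube C ι (c ∘ φ) := by
  obtain ⟨n, e, hc⟩ := hc
  let e' := Fintype.equivFin ι
  refine ⟨_, e', ?_⟩
  let ψ : Q (Fintype.card ι) → Q n := fun w j => φ (fun i => w (e' i)) (e.symm j)
  have hψ : Simple ψ := by
    intro j
    rcases hφ (e.symm j) with ⟨b, hb⟩ | ⟨i, hi⟩ | ⟨i, hi⟩
    · exact Or.inl ⟨b, fun v => hb _⟩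
    · exact Or.inr (Or.inl ⟨e' i, fun v => hi _⟩)
    · exact Or.inr (Or.inr ⟨e' i, fun v => hi _⟩)
  have := hX.comp _ _ ψ hψ.isCubeMorphism _ hc
  convert this using 1
  funext w
  simp [ψ]

theorem Cube.comp' (hX : IsNilspace C) {ι κ : Type} [Fintype ι] {c : (κ → Bool) → X}
    (hc : Cube C κ c) (φ : (ι → Bool) → (κ → Bool)) (hφ : Simple φ) {d : (ι → Bool) → X}
    (hd : ∀ v, d v = c (φ v)) : Cube C ι d := by
  have : d = c ∘ φ := funext hd
  rw [this]
  exact hc.comp hX hφ

theorem cube_iff_equiv (hX : IsNilspace C) {ι : Type} {n : ℕ} (e : ι ≃ Fin n)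
    {c : (ι → Bool) → X} : Cube C ι c ↔ (fun w : Q n => c (fun i => w (e i))) ∈ C n := by
  refine ⟨?_, fun h => ⟨n, e, h⟩⟩
  rintro ⟨m, e', h⟩
  let ψ : Q n → Q m := fun w j => w (e (e'.symm j))
  have hψ : Simple ψ := fun j => Or.inr (Or.inl ⟨e (e'.symm j), fun v => rfl⟩)
  have := hX.comp _ _ ψ hψ.isCubeMorphism _ h
  convert this using 1
  funext w
  simp [ψ]

theorem cube_fin (hX : IsNilspace C) {n : ℕ} {c : Q n → X} : Cube C (Fin n) c ↔ c ∈ C n :=
  cube_iff_equiv hX (Equiv.refl _)

/-- A map depending on one coordinate is a cube. -/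
theorem cube_coord (hX : IsNilspace C) {ι : Type} [Fintype ι] (i : ι) (x y : X) :
    Cube C ι (fun v => if v i = true then y else x) := by
  have h1 : Cube C (Fin 1) (fun w => if w 0 = true then y else x) :=
    (cube_fin hX).2 (by rw [hX.ergodic]; trivial)
  exact h1.comp' hX (fun v _ => v i) (fun _ => Or.inr (Or.inl ⟨i, fun _ => rfl⟩)) (fun _ => rfl)

theorem cube_const (hX : IsNilspace C) {ι : Type} [Fintype ι] (x : X) :
    Cube C ι (fun _ => x) := by
  have h1 : Cube C (Fin 1) (fun _ => x) := (cube_fin hX).2 (by rw [hX.ergodic]; trivial)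
  exact h1.comp' hX (fun _ _ => false) (fun _ => Or.inl ⟨false, fun _ => rfl⟩) (fun _ => rfl)

/-- The top vertex. -/
abbrev top (ι : Type) : ι → Bool := fun _ => true

theorem simple_update {ι : Type} [DecidableEq ι] (i : ι) (b : Bool) :
    Simple (fun v : ι → Bool => update v i b) := by
  intro j
  by_cases h : j = i
  · subst h; exact Or.inl ⟨b, fun v => by simp⟩
  · exact Or.inr (Or.inl ⟨j, fun v => by simp [h]⟩)

theorem simple_flip {ι : Type} [DecidableEq ι] (i : ι) :
    Simple (fun v : ι → Bool => update v i (!v i)) := by
  intro j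
  by_cases h : j = i
  · subst h; exact Or.inr (Or.inr ⟨j, fun v => by simp⟩)
  · exact Or.inr (Or.inl ⟨j, fun v => by simp [h]⟩)

/-- Corner completion for an arbitrary index type, with degenerate faces. -/
theorem complete (hX : IsNilspace C) {ι : Type} [Fintype ι] [DecidableEq ι]
    (c' : (ι → Bool) → X) (h : ∀ i, Cube C ι (fun v => c' (update v i false))) :
    ∃ c, Cube C ι c ∧ ∀ v, v ≠ top ι → c v = c' v := by
  rcases isEmpty_or_nonempty ι with hι | hι
  · refine ⟨fun _ => c' (top ι), cube_const hX _, fun v hv => ?_⟩
    exact absurd (Subsingleton.elim _ _) hv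
  obtain ⟨n, hn⟩ : ∃ n, Fintype.card ι = n + 1 :=
    Nat.exists_eq_succ_of_ne_zero Fintype.card_ne_zero
  let e : ι ≃ Fin (n + 1) := Fintype.equivFinOfCardEq hn
  have hcor : IsCorner C (fun w : Q (n + 1) => c' (fun i => w (e i))) := by
    intro i
    rw [← cube_fin hX]
    refine (h (e.symm i)).comp' hX
      (fun (w : Q n) j => (Fin.insertNth i false w : Q (n + 1)) (e j)) ?_ ?_
    · intro j
      rcases Fin.eq_self_or_eq_succAbove i (e j) with h1 | ⟨l, h1⟩
      · exact Or.inl ⟨false, fun v => by simp [h1]⟩
      · exact Or.inr (Or.inl ⟨l, fun v => by simp [h1]⟩)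
    · intro w
      beta_reduce
      congr 1
      funext j
      by_cases h1 : j = e.symm i
      · subst h1; simp
      · simp [h1]
  obtain ⟨c, hc, hcc⟩ := hX.complete n _ hcor
  refine ⟨fun v => c (fun j => v (e.symm j)), ?_, ?_⟩
  · rw [cube_iff_equiv hX e]
    simpa using hc
  · intro v hv
    beta_reduce
    rw [hcc]
    · simp
    · intro h2
      apply hv
      funext j
      simpa using congrFun h2 (e j)

/-- Uniqueness of completions in all dimensions `≥ k + 1`, at any vertex. -/
theorem unique (hX : IsNilspace C) {k : ℕ} (hk : IsStep C k) {ι : Type} [Fintype ι]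
    (hι : k + 1 ≤ Fintype.card ι) {c d : (ι → Bool) → X} (hc : Cube C ι c) (hd : Cube C ι d)
    (u : ι → Bool) (h : ∀ v, v ≠ u → c v = d v) : c u = d u := by
  classical
  obtain ⟨f⟩ : Nonempty (Fin (k + 1) ↪ ι) :=
    Function.Embedding.nonempty_of_card_le (by simpa using hι)
  let φ : Q (k + 1) → (ι → Bool) := fun w i =>
    if h : ∃ j, f j = i then (if u i = true then w h.choose else !w h.choose) else u i
  have hφ : Simple φ := by
    intro i
    by_cases h1 : ∃ j, f j = i
    · by_cases h2 : u i = true
      · exact Or.inr (Or.inl ⟨h1.choose, fun v => by simp only [φ, dif_pos h1, if_pos h2]⟩)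
      · exact Or.inr (Or.inr ⟨h1.choose, fun v => by simp only [φ, dif_pos h1, if_neg h2]⟩)
    · exact Or.inl ⟨u i, fun v => by simp only [φ, dif_neg h1]⟩
  have h1 : φ (fun _ => true) = u := by
    funext i
    by_cases h1 : ∃ j, f j = i
    · simp only [φ, dif_pos h1]
      cases u i <;> simp
    · simp only [φ, dif_neg h1]
  have h2 : ∀ w, w ≠ (fun _ => true) → φ w ≠ u := by
    intro w hw h3
    apply hw
    funext j
    have h4 : ∃ j', f j' = f j := ⟨j, rfl⟩
    have h5 : h4.choose = j := f.injective h4.choose_spec
    have h6 := congrFun h3 (f j)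
    simp only [φ, dif_pos h4, h5] at h6
    revert h6
    cases u (f j) <;> cases w j <;> simp
  have := hk _ ((cube_fin hX).1 (hc.comp hX hφ)) _ ((cube_fin hX).1 (hd.comp hX hφ))
    (fun w hw => h _ (h2 w hw))
  have h7 := congrFun this (fun _ => true)
  simpa [h1] using h7

/-- The meet of two vertices. -/
def meet {ι : Type} (v u : ι → Bool) : ι → Bool := fun i => v i && u i

theorem simple_meet {ι : Type} (u : ι → Bool) : Simple (fun v : ι → Bool => meet v u) := by
  intro j
  cases h : u j
  · exact Or.inl ⟨false, fun v => by simp [meet, h]⟩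
  · exact Or.inr (Or.inl ⟨j, fun v => by simp [meet, h]⟩)

theorem meet_le_right {ι : Type} (v u : ι → Bool) : meet v u ≤ u := by
  intro i
  simp only [meet]
  cases v i <;> cases u i <;> simp

theorem meet_top {ι : Type} (v : ι → Bool) : meet v (top ι) = v := by
  funext i; simp [meet]

/-- Completion below a vertex `u`. -/
theorem complete_below (hX : IsNilspace C) {ι : Type} [Fintype ι] [DecidableEq ι]
    (f : (ι → Bool) → X) (u : ι → Bool)
    (h : ∀ i, u i = true → Cube C ι (fun v => f (meet v (update u i false)))) :
    ∃ y, Cube C ι (fun v => update f u y (meet v u)) := by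
  classical
  let ext : ({i // u i = true} → Bool) → (ι → Bool) := fun w i =>
    if h : u i = true then w ⟨i, h⟩ else false
  have hext : Simple ext := by
    intro i
    by_cases h1 : u i = true
    · exact Or.inr (Or.inl ⟨⟨i, h1⟩, fun v => by simp only [ext, dif_pos h1]⟩)
    · exact Or.inl ⟨false, fun v => by simp only [ext, dif_neg h1]⟩
  obtain ⟨c, hc, hcc⟩ := complete hX (f ∘ ext) (by
    intro i
    refine (h i.1 i.2).comp' hX ext hext (fun w => ?_)
    simp only [Function.comp]
    congr 1
    funext j
    by_cases h1 : u j = true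
    · by_cases h2 : j = i.1
      · subst h2
        simp [ext, meet, h1]
      · have h3 : (⟨j, h1⟩ : {i // u i = true}) ≠ i := fun h => h2 (congrArg Subtype.val h)
        simp [ext, meet, h1, h2, h3]
    · simp [ext, meet, h1])
  refine ⟨c (top _), hc.comp' hX (fun v i => v i.1)
    (fun i => Or.inr (Or.inl ⟨i.1, fun _ => rfl⟩)) (fun v => ?_)⟩
  by_cases h1 : meet v u = u
  · rw [h1, update_self]
    congr 1
    funext i
    have := congrFun h1 i.1
    simp only [meet, i.2] at this
    simpa using this.symm
  · rw [update_of_ne h1, hcc]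
    · simp only [Function.comp]
      congr 1
      funext j
      by_cases h2 : u j = true
      · simp [ext, meet, h2]
      · simp [ext, meet, h2]
    · intro h2
      apply h1
      funext j
      by_cases h3 : u j = true
      · have := congrFun h2 ⟨j, h3⟩
        simp only [meet, h3]
        simpa using this
      · simp [meet, h3]

/-- The simplicial extension property. -/
theorem extend (hX : IsNilspace C) {ι : Type} [Fintype ι] [DecidableEq ι] (m : ℕ) :
    ∀ (S : Finset (ι → Bool)), Sᶜ.card = m → (∀ u ∈ S, ∀ w, w ≤ u → w ∈ S) →
      ∀ f : (ι → Bool) → X, (∀ u ∈ S, Cube C ι (fun v => f (meet v u))) →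
        ∃ c, Cube C ι c ∧ ∀ v ∈ S, c v = f v := by
  induction m with
  | zero =>
    intro S hS _ f hf
    have h1 : top ι ∈ S := by
      by_contra h
      have : top ι ∈ Sᶜ := by simpa using h
      rw [Finset.card_eq_zero.1 hS] at this
      simp at this
    refine ⟨f, ?_, fun _ _ => rfl⟩
    simpa [meet_top] using hf _ h1
  | succ m ih =>
    intro S hS hdown f hf
    have hne : Sᶜ.Nonempty := Finset.card_pos.1 (by omega)
    obtain ⟨u, hu⟩ := Finset.exists_minimal hne
    have huS : u ∉ S := by simpa using hu.1
    have hlt : ∀ w, w ≤ u → w ≠ u → w ∈ S := by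
      intro w hw hwu
      by_contra h
      exact hwu (le_antisymm hw (hu.2 (by simpa using h) hw))
    obtain ⟨y, hy⟩ := complete_below hX f u (by
      intro i hi
      apply hf
      apply hlt
      · intro j
        by_cases h : j = i
        · subst h; simp
        · simp [h]
      · intro h
        have := congrFun h i
        simp [hi] at this)
    obtain ⟨c, hc, hcc⟩ := ih (insert u S) (by
        rw [Finset.compl_insert, Finset.card_erase_of_mem hu.1, hS]; rfl)
      (by
        intro u' hu' w hw
        rcases Finset.mem_insert.1 hu' with rfl | h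
        · by_cases h1 : w = u'
          · simp [h1]
          · exact Finset.mem_insert_of_mem (hlt w hw h1)
        · exact Finset.mem_insert_of_mem (hdown u' h w hw))
      (update f u y) (by
        intro u' hu'
        rcases Finset.mem_insert.1 hu' with rfl | h
        · exact hy
        · have := hf u' h
          convert this using 2 with v
          apply update_of_ne
          intro h2
          exact huS (h2 ▸ hdown u' h _ (meet_le_right v u')))
    refine ⟨c, hc, fun v hv => ?_⟩
    rw [hcc v (Finset.mem_insert_of_mem hv), update_of_ne]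
    intro h
    exact huS (h ▸ hv)

/-- Concatenation of cubes in the direction `i`. -/
theorem concat (hX : IsNilspace C) {ι : Type} [Fintype ι] [DecidableEq ι] (i : ι)
    {c₁ c₂ : (ι → Bool) → X} (h₁ : Cube C ι c₁) (h₂ : Cube C ι c₂)
    (h : ∀ v, c₁ (update v i true) = c₂ (update v i false)) :
    Cube C ι (fun v => if v i = true then c₂ v else c₁ v) := by
  classical
  let f : (Option ι → Bool) → X := fun w =>
    if w none = true then c₂ (update (fun j => w (some j)) i true)
    else c₁ (update (fun j => w (some j)) i (!w (some i)))
  let S : Finset (Option ι → Bool) := Finset.univ.filter fun w => w none = false ∨ w (some i) = false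
  obtain ⟨c, hc, hcc⟩ := extend hX _ S rfl (by
      intro u hu w hw
      simp only [S, Finset.mem_filter, Finset.mem_univ, true_and] at hu ⊢
      have h1 := hw none
      have h2 := hw (some i)
      rcases hu with hu | hu
      · left; rw [hu] at h1; exact le_antisymm h1 (Bool.false_le _)
      · right; rw [hu] at h2; exact le_antisymm h2 (Bool.false_le _)) f (by
      intro u hu
      simp only [S, Finset.mem_filter, Finset.mem_univ, true_and] at hu
      by_cases h1 : u none = false
      · refine h₁.comp' hX (fun w => update (fun j => meet w u (some j)) i (!meet w u (some i)))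
          ?_ ?_
        · intro j
          by_cases h2 : j = i
          · subst h2
            cases h3 : u (some j)
            · exact Or.inl ⟨true, fun v => by simp [meet, h3]⟩
            · exact Or.inr (Or.inr ⟨some j, fun v => by simp [meet, h3]⟩)
          · cases h3 : u (some j)
            · exact Or.inl ⟨false, fun v => by simp [meet, h3, h2]⟩
            · exact Or.inr (Or.inl ⟨some j, fun v => by simp [meet, h3, h2]⟩)
        · intro w
          simp [f, meet, h1]
      · have h2 : u (some i) = false := hu.resolve_left h1
        have h1' : u none = true := by simpa using h1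
        refine h₂.comp' hX (fun w => update (fun j => meet w u (some j)) i (w none)) ?_ ?_
        · intro j
          by_cases h3 : j = i
          · subst h3
            exact Or.inr (Or.inl ⟨none, fun v => by simp⟩)
          · cases h4 : u (some j)
            · exact Or.inl ⟨false, fun v => by simp [meet, h3, h4]⟩
            · exact Or.inr (Or.inl ⟨some j, fun v => by simp [meet, h3, h4]⟩)
        · intro w
          cases h3 : w none
          · simp only [f, meet, h1', h2, h3]
            simpa using h _
          · simp [f, meet, h1', h3])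
  let φ : (ι → Bool) → (Option ι → Bool) := fun v o =>
    o.elim (v i) (fun j => update v i (!v i) j)
  have hφ : Simple φ := by
    rintro (_ | j)
    · exact Or.inr (Or.inl ⟨i, fun v => rfl⟩)
    · exact simple_flip i j
  refine hc.comp' hX φ hφ (fun v => ?_)
  rw [hcc]
  · cases h1 : v i
    · have h2 : update v i false = v := by rw [← h1, update_eq_self]
      simp [f, φ, h1, h2]
    · have h2 : update v i true = v := by rw [← h1, update_eq_self]
      simp [f, φ, h1, h2]
  · simp only [S, Finset.mem_filter, Finset.mem_univ, true_and, φ, Option.elim]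
    cases h1 : v i <;> simp

/-- Set the coordinates in `J` to `true`. -/
def fill {ι : Type} [DecidableEq ι] (J : Finset ι) (v : ι → Bool) : ι → Bool :=
  fun i => if i ∈ J then true else v i

theorem simple_fill {ι : Type} [DecidableEq ι] (J : Finset ι) : Simple (fill J) := by
  intro j
  by_cases h : j ∈ J
  · exact Or.inl ⟨true, fun v => by simp [fill, h]⟩
  · exact Or.inr (Or.inl ⟨j, fun v => by simp [fill, h]⟩)

/-- Modification of a cube on the face where the coordinates in `J` are `true`. -/
theorem modify (hX : IsNilspace C) {ι : Type} [Fintype ι] [DecidableEq ι] (J : Finset ι) :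
    ∀ {c d : (ι → Bool) → X}, Cube C ι c → Cube C ι d →
      (∀ v, ¬ (∀ i ∈ J, v i = true) → d v = c (fill J v)) →
      Cube C ι (fun v => if ∀ i ∈ J, v i = true then d v else c v) := by
  induction J using Finset.induction_on with
  | empty => intro c d _ hd _; simpa using hd
  | insert j J hj ih =>
    intro c d hc hd h
    have h1 : Cube C ι (fun v => c (update v j true)) := hc.comp hX (simple_update j true)
    have hfill : ∀ v, update (fill J v) j true = fill (insert j J) v := by
      intro v; funext i
      by_cases h2 : i = j
      · subst h2; simp [fill]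
      · simp [fill, h2]
    have h2 := ih h1 hd (by
      intro v hv
      rw [h v (fun h3 => hv fun i hi => h3 i (Finset.mem_insert_of_mem hi)), hfill])
    have h3 := concat hX j hc h2 (by
      intro v
      split_ifs with h4
      · rw [h]
        · congr 1
          funext i
          by_cases h5 : i = j
          · subst h5; simp [fill]
          · by_cases h6 : i ∈ J
            · have := h4 i h6
              simp only [update_of_ne h5] at this
              simp [fill, h5, h6, this]
            · simp [fill, h5, h6]
        · intro h5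
          simpa using h5 j (Finset.mem_insert_self _ _)
      · simp)
    convert h3 using 2 with v
    by_cases h4 : v j = true
    · simp only [h4, if_true, Finset.forall_mem_insert, true_and]
      split_ifs
      · rfl
      · rw [← h4, update_eq_self]
    · simp [h4]

/-- Two cubes which agree off the top vertex give the basic cube. -/
theorem basic_of_agree (hX : IsNilspace C) {ι : Type} [Fintype ι] [DecidableEq ι]
    {c d : (ι → Bool) → X} (hc : Cube C ι c) (hd : Cube C ι d)
    (h : ∀ v, v ≠ top ι → c v = d v) :
    Cube C ι (fun v => if v = top ι then d (top ι) else c (top ι)) := by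
  have key : ∀ J : Finset ι,
      Cube C ι (fun v => if v = top ι then d (top ι) else c (fill J v)) := by
    intro J
    induction J using Finset.induction_on with
    | empty =>
      convert hd using 2 with v
      split_ifs with h1
      · rw [h1]
      · rw [← h v h1]
        congr 1
    | insert j J hj ih =>
      have h1 : Cube C ι (fun v => c (fill J (update v j (!v j)))) :=
        (hc.comp hX (simple_fill J)).comp hX (simple_flip j)
      have h2 := concat hX j h1 ih (by
        intro v
        rw [if_neg]
        · simp
        · intro h2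
          simpa using congrFun h2 j)
      convert h2 using 2 with v
      by_cases h3 : v j = true
      · simp only [h3, if_true]
        split_ifs
        · rfl
        · congr 1
          funext i
          by_cases h4 : i = j
          · subst h4; simp [fill, h3]
          · simp [fill, h4]
      · have h4 : v ≠ top ι := fun h4 => h3 (by rw [h4])
        simp only [h3, if_neg h4]
        simp only [Bool.false_eq_true, if_false]
        congr 1
        funext i
        by_cases h5 : i = j
        · subst h5; simp [fill, hj]
        · simp [fill, h5]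
  have := key Finset.univ
  convert this using 3 with v
  congr 1
  funext i; simp [fill]

end Pool.Agent.H38Z.Nil
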