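import Mathlib

set_option autoImplicit false

namespace Pool.Agent.H38Z.Nil

open MeasureTheory

/-- The discrete cube `{0,1}^n` (`false = 0`, `true = 1`). -/
abbrev Q (n : ℕ) : Type := Fin n → Bool

/-- A system of cube sets on `X`. -/
abbrev Cubes (X : Type) : Type := ∀ n : ℕ, Set (Q n → X)

/-- Discrete-cube morphisms: restrictions of affine homomorphisms `ℤ^m → ℤ^n`. -/
def IsCubeMorphism {m n : ℕ} (φ : Q m → Q n) : Prop :=
  ∃ (A : (Fin m → ℤ) →+ (Fin n → ℤ)) (b : Fin n → ℤ),
    ∀ v : Q m, (fun j => ((φ v j).toNat : ℤ)) = A (fun i => ((v i).toNat : ℤ)) + b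

/-- `c` is an `(n+1)`-corner: its restriction to each `n`-face containing `0` is a cube (the value
of `c` at the vertex `1^{n+1}` plays no role). -/
def IsCorner {X : Type} (C : Cubes X) {n : ℕ} (c : Q (n + 1) → X) : Prop :=
  ∀ i : Fin (n + 1), (fun w : Q n => c (Fin.insertNth i false w)) ∈ C n

/-- The nilspace axioms: composition, ergodicity, corner completion. -/
structure IsNilspace {X : Type} (C : Cubes X) : Prop where
  comp : ∀ (m n : ℕ) (φ : Q m → Q n), IsCubeMorphism φ → ∀ c ∈ C n, c ∘ φ ∈ C m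
  ergodic : C 1 = Set.univ
  complete : ∀ (n : ℕ) (c' : Q (n + 1) → X), IsCorner C c' →
    ∃ c ∈ C (n + 1), ∀ v, v ≠ (fun _ => true) → c v = c' v

/-- `k`-step: completions of `(k+1)`-corners are unique. -/
def IsStep {X : Type} (C : Cubes X) (k : ℕ) : Prop :=
  ∀ c ∈ C (k + 1), ∀ d ∈ C (k + 1), (∀ v, v ≠ (fun _ => true) → c v = d v) → c = d

/-- `α` is a translation of height `j`: applying `α` on a face of codimension `j` of a cube gives
a cube. For `j = 1` this is the condition defining `Tran(X)`. -/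
def IsTranslation {X : Type} (C : Cubes X) (j : ℕ) (α : X → X) : Prop :=
  ∀ (n : ℕ), ∀ c ∈ C n, ∀ (S : Finset (Fin n)) (b : Q n), S.card = j →
    (fun v => if ∀ i ∈ S, v i = b i then α (c v) else c v) ∈ C n

/-- The relation `x ∼_k y`: two `(k+1)`-cubes differ only at the vertex `0`, where they take the
values `x` and `y`. -/
def Sim {X : Type} (C : Cubes X) (k : ℕ) (x y : X) : Prop :=
  ∃ c ∈ C (k + 1), ∃ d ∈ C (k + 1), c (fun _ => false) = x ∧ d (fun _ => false) = y ∧
    ∀ v, v ≠ (fun _ => false) → c v = d v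

/-- The cubes of the `k`-step factor `X_k = X / ∼_k`. -/
def factorCubes {X : Type} (C : Cubes X) (k : ℕ) : Cubes (Quot (Sim C k)) :=
  fun n => {c | ∃ d ∈ C n, c = Quot.mk (Sim C k) ∘ d}

/-- `μ` is the Haar measure of the `k`-step compact nilspace `X`: a Borel probability measure which
(for `k ≥ 1`) is invariant under the top structure group `Z_k(X)`, acting on `X` as the group of
translations of height `k`, and whose image in `X_{k-1}` is the Haar measure of `X_{k-1}`. -/
def IsHaar : (k : ℕ) → (X : Type) → [TopologicalSpace X] → Cubes X →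
    @Measure X (borel X) → Prop
  | 0, X, _, _, μ => @IsProbabilityMeasure X (borel X) μ
  | k + 1, X, _, C, μ => @IsProbabilityMeasure X (borel X) μ ∧
      (∀ τ : X ≃ₜ X, IsTranslation C (k + 1) τ → @Measure.map X X (borel X) (borel X) τ μ = μ) ∧
      IsHaar k (Quot (Sim C k)) (factorCubes C k)
        (@Measure.map X _ (borel X) (borel (Quot (Sim C k))) (Quot.mk (Sim C k)) μ)

end Pool.Agent.H38Z.Nil
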