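import Pool.Agent.H38Z.Nil.Cube

set_option autoImplicit false

namespace Pool.Agent.H38Z.Nil

open Function

variable {X : Type} {C : Cubes X}

/-- The number of `true` coordinates. -/
def ht {ι : Type} [Fintype ι] (u : ι → Bool) : ℕ := (Finset.univ.filter fun i => u i = true).card

theorem ht_lt {ι : Type} [Fintype ι] {w u : ι → Bool} (h : w ≤ u) (h' : w ≠ u) : ht w < ht u := by
  classical
  apply Finset.card_lt_card
  refine ⟨?_, fun h2 => h' ?_⟩
  · intro i hi
    simp only [Finset.mem_filter, Finset.mem_univ, true_and] at hi ⊢
    have := h i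
    rw [hi] at this
    exact le_antisymm (Bool.le_true _) this
  · funext i
    refine le_antisymm (h i) ?_
    cases h3 : u i
    · exact Bool.false_le _
    · have : i ∈ Finset.univ.filter fun i => w i = true := h2 (by simp [h3])
      simp only [Finset.mem_filter, Finset.mem_univ, true_and] at this
      rw [this]

theorem ht_mono {ι : Type} [Fintype ι] {w u : ι → Bool} (h : w ≤ u) : ht w ≤ ht u := by
  by_cases h' : w = u
  · rw [h']
  · exact (ht_lt h h').le

theorem ht_top (ι : Type) [Fintype ι] : ht (top ι) = Fintype.card ι := by simp [ht]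

theorem simple_extend {ι : Type} {m : ℕ} (f : Fin m ↪ ι) (w : ι → Bool) :
    Simple (fun t : Q m => Function.extend f t w) := by
  intro i
  by_cases h : ∃ j, f j = i
  · obtain ⟨j, rfl⟩ := h
    exact Or.inr (Or.inl ⟨j, fun t => f.injective.extend_apply _ _ _⟩)
  · exact Or.inl ⟨w i, fun t => Function.extend_apply' _ _ _ h⟩

theorem exists_emb {ι : Type} (J : Finset ι) {m : ℕ} (h : J.card = m) :
    ∃ f : Fin m ↪ ι, ∀ i, (∃ j, f j = i) ↔ i ∈ J := by
  let e := (Finset.equivFinOfCardEq h).symm
  refine ⟨e.toEmbedding.trans (Function.Embedding.subtype _), fun i => ⟨?_, fun hi => ?_⟩⟩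
  · rintro ⟨j, rfl⟩
    exact (e j).2
  · exact ⟨e.symm ⟨i, hi⟩, by simp⟩

/-- A face of dimension `m` with top vertex `u`, below `u`. -/
theorem exists_face_below {ι : Type} [Fintype ι] (u : ι → Bool) {m : ℕ} (h : m ≤ ht u) :
    ∃ f : Fin m ↪ ι, Function.extend f (top (Fin m)) u = u ∧
      ∀ t : Q m, Function.extend f t u ≤ u ∧ (t ≠ top _ → Function.extend f t u ≠ u) := by
  classical
  obtain ⟨J, hJ, hc⟩ := Finset.exists_subset_card_eq h
  obtain ⟨f, hf⟩ := exists_emb J hc
  have hu : ∀ j, u (f j) = true := fun j => by
    simpa using hJ ((hf _).1 ⟨j, rfl⟩)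
  refine ⟨f, ?_, fun t => ⟨?_, ?_⟩⟩
  · funext i
    by_cases h1 : ∃ j, f j = i
    · obtain ⟨j, rfl⟩ := h1
      rw [f.injective.extend_apply, hu]
    · exact Function.extend_apply' _ _ _ h1
  · intro i
    by_cases h1 : ∃ j, f j = i
    · obtain ⟨j, rfl⟩ := h1
      rw [hu]; exact Bool.le_true _
    · rw [Function.extend_apply' _ _ _ h1]
  · intro ht1 h2
    apply ht1
    funext j
    have := congrFun h2 (f j)
    rwa [f.injective.extend_apply, hu] at this

/-- A face of dimension `m` through `0` containing `u`. -/
theorem exists_face_above {ι : Type} [Fintype ι] (u : ι → Bool) {m : ℕ} (h : ht u ≤ m)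
    (hm : m ≤ Fintype.card ι) :
    ∃ f : Fin m ↪ ι, ∀ v, meet v u =
      Function.extend f (fun j => meet v u (f j)) (fun _ => false) := by
  classical
  obtain ⟨J, hJ, hc⟩ := Finset.exists_superset_card_eq h hm
  obtain ⟨f, hf⟩ := exists_emb J hc
  refine ⟨f, fun v => ?_⟩
  funext i
  by_cases h1 : ∃ j, f j = i
  · obtain ⟨j, rfl⟩ := h1
    rw [f.injective.extend_apply]
  · rw [Function.extend_apply' _ _ _ h1]
    have : u i = false := by
      by_contra h2
      exact h1 ((hf i).2 (hJ (by simpa using h2)))
    simp [meet, this]

theorem meet_eq_left {ι : Type} {v u : ι → Bool} (h : v ≤ u) : meet v u = v := by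
  funext i
  have := h i
  simp only [meet]
  revert this
  cases v i <;> cases u i <;> simp

theorem update_false_le {ι : Type} [DecidableEq ι] (u : ι → Bool) (i : ι) :
    update u i false ≤ u := by
  intro j
  by_cases h : j = i
  · subst h; simp
  · simp [h]

theorem simple_pull {ι κ : Type} (u : κ → Bool) (f : ι → κ) :
    Simple (fun (v : κ → Bool) (j : ι) => meet v u (f j)) := fun j => simple_meet u (f j)

/-- A map all of whose `(s+1)`-dimensional faces are cubes is a cube. -/
theorem cube_of_faces (hX : IsNilspace C) {s : ℕ} (hs : IsStep C s) {ι : Type} [Fintype ι]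
    [DecidableEq ι] (hι : s + 1 ≤ Fintype.card ι) {c : (ι → Bool) → X}
    (h : ∀ (f : Fin (s + 1) ↪ ι) (w : ι → Bool),
      Cube C (Fin (s + 1)) (fun t => c (Function.extend f t w))) : Cube C ι c := by
  have key : ∀ (m : ℕ) (u : ι → Bool), ht u = m → Cube C ι (fun v => c (meet v u)) := by
    intro m
    induction m using Nat.strong_induction_on with
    | _ m ih =>
      intro u hu
      by_cases h1 : ht u ≤ s + 1
      · obtain ⟨f, hf⟩ := exists_face_above u h1 hι
        exact (h f (fun _ => false)).comp' hX _ (simple_pull u f) (fun v => by rw [← hf v])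
      · obtain ⟨y, hy⟩ := complete_below hX c u (by
          intro i hi
          refine ih _ ?_ _ rfl
          rw [← hu]
          refine ht_lt (update_false_le u i) (fun h2 => ?_)
          have := congrFun h2 i
          simp [hi] at this)
        obtain ⟨f, hf1, hf2⟩ := exists_face_below u (m := s + 1) (by omega)
        have h2 := unique hX hs (by simp) (h f u) (hy.comp hX (simple_extend f u)) (top _) (by
          intro t ht1
          simp only [Function.comp]
          rw [meet_eq_left (hf2 t).1, update_of_ne ((hf2 t).2 ht1)])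
        simp only [Function.comp, hf1, meet_eq_left (le_refl u), update_self] at h2
        rw [← h2, update_eq_self] at hy
        exact hy
  simpa [meet_top] using key _ (top ι) rfl

/-- The basic map: `y` at the top vertex and `x` elsewhere. -/
def basic (ι : Type) [Fintype ι] (x y : X) : (ι → Bool) → X :=
  fun v => if ∀ i, v i = true then y else x

theorem all_true_iff {ι : Type} {v : ι → Bool} : (∀ i, v i = true) ↔ v = top ι :=
  ⟨fun h => funext h, fun h i => by rw [h]⟩

theorem simple_not {ι : Type} : Simple (fun (v : ι → Bool) i => !v i) :=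
  fun i => Or.inr (Or.inr ⟨i, fun _ => rfl⟩)

theorem sim_iff (hX : IsNilspace C) {k : ℕ} {x y : X} :
    Sim C k x y ↔ Cube C (Fin (k + 1)) (basic _ x y) := by
  constructor
  · rintro ⟨c, hc, d, hd, rfl, rfl, h⟩
    have := basic_of_agree hX (((cube_fin hX).2 hc).comp hX simple_not)
      (((cube_fin hX).2 hd).comp hX simple_not) (by
        intro v hv
        apply h
        intro h2
        apply hv
        funext i
        simpa using congrFun h2 i)
    convert this using 2 with v
    simp [basic, all_true_iff]
  · intro h
    refine ⟨_, (cube_fin hX).1 (cube_const hX x), _, (cube_fin hX).1 (h.comp hX simple_not), rfl,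
      by simp [basic], fun v hv => ?_⟩
    simp only [Function.comp, basic]
    rw [if_neg]
    intro h2
    apply hv
    funext i
    simpa using h2 i

theorem basic_mono (hX : IsNilspace C) {ι κ : Type} [Fintype ι] [Fintype κ]
    (h : Fintype.card ι ≤ Fintype.card κ) {x y : X} (hc : Cube C κ (basic κ x y)) :
    Cube C ι (basic ι x y) := by
  obtain ⟨f⟩ : Nonempty (ι ↪ κ) := Function.Embedding.nonempty_of_card_le h
  refine hc.comp' hX (fun t => Function.extend f t (top κ)) ?_ ?_
  · intro i
    by_cases h : ∃ j, f j = i
    · obtain ⟨j, rfl⟩ := h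
      exact Or.inr (Or.inl ⟨j, fun t => f.injective.extend_apply _ _ _⟩)
    · exact Or.inl ⟨true, fun t => Function.extend_apply' _ _ _ h⟩
  · intro v
    simp only [basic]
    congr 1
    apply propext
    constructor
    · intro h1 i
      by_cases h : ∃ j, f j = i
      · obtain ⟨j, rfl⟩ := h
        rw [f.injective.extend_apply, h1]
      · exact Function.extend_apply' _ _ _ h
    · intro h1 j
      have := h1 (f j)
      rwa [f.injective.extend_apply] at this

theorem Sim.basic (hX : IsNilspace C) {k : ℕ} {x y : X} (h : Sim C k x y) {ι : Type} [Fintype ι]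
    (hι : Fintype.card ι ≤ k + 1) : Cube C ι (basic ι x y) :=
  basic_mono hX (by simpa using hι) ((sim_iff hX).1 h)

theorem sim_of_basic (hX : IsNilspace C) {k : ℕ} {x y : X} {ι : Type} [Fintype ι]
    (hι : k + 1 ≤ Fintype.card ι) (h : Cube C ι (basic ι x y)) : Sim C k x y :=
  (sim_iff hX).2 (basic_mono hX (by simpa using hι) h)

theorem sim_of_agree_top (hX : IsNilspace C) {k : ℕ} {c d : Q (k + 1) → X}
    (hc : Cube C _ c) (hd : Cube C _ d) (h : ∀ v, v ≠ top _ → c v = d v) :
    Sim C k (c (top _)) (d (top _)) := by
  rw [sim_iff hX]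
  convert basic_of_agree hX hc hd h using 2 with v
  simp [basic, all_true_iff]

theorem sim_equivalence (hX : IsNilspace C) (k : ℕ) : Equivalence (Sim C k) where
  refl x := (sim_iff hX).2 (by
    convert cube_const hX (ι := Fin (k + 1)) x using 2
    simp [basic])
  symm := by
    rintro x y ⟨c, hc, d, hd, h1, h2, h3⟩
    exact ⟨d, hd, c, hc, h2, h1, fun v hv => (h3 v hv).symm⟩
  trans := by
    intro x y z h1 h2
    have h3 : Sim C k y x := by
      obtain ⟨c, hc, d, hd, h1, h2, h3⟩ := h1
      exact ⟨d, hd, c, hc, h2, h1, fun v hv => (h3 v hv).symm⟩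
    have := sim_of_agree_top hX ((sim_iff hX).1 h3) ((sim_iff hX).1 h2) (by
      intro v hv
      simp [basic, all_true_iff, hv])
    simpa [basic] using this

theorem mk_eq_iff (hX : IsNilspace C) {k : ℕ} {x y : X} :
    Quot.mk (Sim C k) x = Quot.mk (Sim C k) y ↔ Sim C k x y := by
  rw [Quot.eq]
  exact (sim_equivalence hX k).eqvGen_iff

/-- The reflection exchanging the top vertex and `u`. -/
def refl {ι : Type} (u v : ι → Bool) : ι → Bool := fun i => if u i = true then v i else !v i

theorem simple_refl {ι : Type} (u : ι → Bool) : Simple (refl u) := by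
  intro i
  cases h : u i
  · exact Or.inr (Or.inr ⟨i, fun v => by simp [refl, h]⟩)
  · exact Or.inr (Or.inl ⟨i, fun v => by simp [refl, h]⟩)

theorem refl_refl {ι : Type} (u v : ι → Bool) : refl u (refl u v) = v := by
  funext i
  cases h : u i <;> simp [refl, h]

theorem refl_apply_eq {ι : Type} (u v : ι → Bool) (i : ι) : refl u v i = true ↔ v i = u i := by
  cases h : u i <;> simp [refl, h]

theorem refl_top {ι : Type} (u : ι → Bool) : refl u (top ι) = u := by
  funext i
  cases h : u i <;> simp [refl, h]

theorem replace_one (hX : IsNilspace C) {k : ℕ} {ι : Type} [Fintype ι] [DecidableEq ι]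
    (hι : Fintype.card ι ≤ k + 1) {c : (ι → Bool) → X} (hc : Cube C ι c) (u : ι → Bool) {y : X}
    (h : Sim C k (c u) y) : Cube C ι (update c u y) := by
  have h1 := modify hX Finset.univ (hc.comp hX (simple_refl u)) (h.basic hX hι) (by
    intro v hv
    have h2 : fill Finset.univ v = top ι := by funext i; simp [fill]
    simp only [Finset.mem_univ, true_imp_iff] at hv
    simp [basic, hv, h2, refl_top])
  refine h1.comp' hX (refl u) (simple_refl u) (fun v => ?_)
  simp only [Finset.mem_univ, true_imp_iff, refl_apply_eq, Function.comp, refl_refl, basic]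
  by_cases h3 : v = u
  · subst h3; simp
  · have h4 : ¬ ∀ i, v i = u i := fun h4 => h3 (funext h4)
    simp [h3, h4]

theorem replace (hX : IsNilspace C) {k : ℕ} {ι : Type} [Fintype ι]
    (hι : Fintype.card ι ≤ k + 1) {c d : (ι → Bool) → X} (hc : Cube C ι c)
    (h : ∀ v, Sim C k (c v) (d v)) : Cube C ι d := by
  classical
  have key : ∀ S : Finset (ι → Bool), Cube C ι (S.piecewise d c) := by
    intro S
    induction S using Finset.induction_on with
    | empty => simpa using hc
    | insert u S hu ih =>
      rw [Finset.piecewise_insert]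
      apply replace_one hX hι ih
      rw [Finset.piecewise_eq_of_notMem _ _ _ hu]
      exact h u
  simpa using key Finset.univ

theorem sim_of_agree (hX : IsNilspace C) {k : ℕ} {c d : Q (k + 1) → X}
    (hc : Cube C _ c) (hd : Cube C _ d) (h : ∀ v, v ≠ top _ → Sim C k (c v) (d v)) :
    Sim C k (c (top _)) (d (top _)) := by
  have h1 : Cube C _ (update c (top _) (d (top _))) := by
    refine replace hX (k := k) (by simp) hd (fun v => ?_)
    by_cases h2 : v = top _
    · subst h2; simpa using (sim_equivalence hX k).refl _
    · rw [update_of_ne h2]; exact (sim_equivalence hX k).symm (h v h2)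
  simpa using sim_of_agree_top hX hc h1 (fun v hv => by rw [update_of_ne hv])

theorem factor_step (hX : IsNilspace C) (k : ℕ) : IsStep (factorCubes C k) k := by
  rintro _ ⟨c, hc, rfl⟩ _ ⟨d, hd, rfl⟩ h
  funext v
  by_cases hv : v = fun _ => true
  · subst hv
    exact (mk_eq_iff hX).2 (sim_of_agree hX ((cube_fin hX).2 hc) ((cube_fin hX).2 hd)
      (fun v hv => (mk_eq_iff hX).1 (h v hv)))
  · exact h v hv

theorem simple_insertNth {n : ℕ} (i : Fin (n + 1)) (b : Bool) :
    Simple (fun w : Q n => (Fin.insertNth i b w : Q (n + 1))) := by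
  intro j
  rcases Fin.eq_self_or_eq_succAbove i j with rfl | ⟨l, rfl⟩
  · exact Or.inl ⟨b, fun v => by simp⟩
  · exact Or.inr (Or.inl ⟨l, fun v => by simp⟩)

theorem factor_nilspace (hX : IsNilspace C) (k : ℕ) : IsNilspace (factorCubes C k) where
  comp := by
    rintro m n φ hφ _ ⟨c, hc, rfl⟩
    exact ⟨c ∘ φ, hX.comp m n φ hφ c hc, rfl⟩
  ergodic := by
    apply Set.eq_univ_of_forall
    intro c
    exact ⟨fun v => (c v).out, by rw [hX.ergodic]; trivial, funext fun v => by simp⟩
  complete := by
    classical
    intro n c' hc'
    let g : Q (n + 1) → X := fun v => (c' v).out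
    have hg : ∀ v, Quot.mk (Sim C k) (g v) = c' v := fun v => Quot.out_eq _
    by_cases hn : n ≤ k + 1
    · obtain ⟨c, hc, hcc⟩ := hX.complete n g (by
        intro i
        obtain ⟨d, hd, hdd⟩ := hc' i
        refine (cube_fin hX).1 (replace hX (k := k) (by simpa using hn) ((cube_fin hX).2 hd) ?_)
        intro w
        rw [← mk_eq_iff hX, hg]
        exact (congrFun hdd w).symm)
      exact ⟨_, ⟨c, hc, rfl⟩, fun v hv => by simp [hcc v hv, hg]⟩
    · -- every vertex other than the top lies in a face through `0`
      have hface : ∀ u : Q (n + 1), u ≠ top _ → ∃ d, Cube C (Fin (n + 1)) d ∧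
          ∀ v, v ≤ u → Quot.mk (Sim C k) (d v) = c' v := by
        intro u hu
        obtain ⟨i, hi⟩ : ∃ i, u i = false := by
          by_contra h
          apply hu
          funext i
          by_contra h2
          exact h ⟨i, by simpa using h2⟩
        obtain ⟨d, hd, hdd⟩ := hc' i
        refine ⟨fun v => d (fun j => v (i.succAbove j)), ((cube_fin hX).2 hd).comp hX
          (φ := fun (v : Q (n + 1)) j => v (i.succAbove j))
          (fun j => Or.inr (Or.inl ⟨_, fun _ => rfl⟩)), fun v hv => ?_⟩
        have h1 := congrFun hdd (fun j => v (i.succAbove j))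
        simp only [Function.comp] at h1
        rw [← h1]
        congr 1
        have h2 : v i = false := by
          have := hv i
          rw [hi] at this
          exact le_antisymm this (Bool.false_le _)
        rw [← h2]
        exact Fin.insertNth_self_removeNth i v
      let S : Finset (Q (n + 1)) := Finset.univ.filter fun u => ht u ≤ k + 1
      obtain ⟨c, hc, hcc⟩ := extend hX _ S rfl (by
          intro u hu w hw
          simp only [S, Finset.mem_filter, Finset.mem_univ, true_and] at hu ⊢
          exact (ht_mono hw).trans hu) g (by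
          intro u hu
          simp only [S, Finset.mem_filter, Finset.mem_univ, true_and] at hu
          have hu' : u ≠ top _ := by
            rintro rfl
            rw [ht_top, Fintype.card_fin] at hu
            omega
          obtain ⟨d, hd, hdd⟩ := hface u hu'
          obtain ⟨f, hf⟩ := exists_face_above u hu (by rw [Fintype.card_fin]; omega)
          have h1 : Cube C (Fin (k + 1))
              (fun t => g (meet (Function.extend f t (fun _ => false)) u)) := by
            refine replace hX (k := k) (by simp)
              ((hd.comp hX (simple_meet u)).comp hX (simple_extend f (fun _ => false))) ?_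
            intro t
            rw [← mk_eq_iff hX, hg]
            exact hdd _ (meet_le_right _ _)
          refine h1.comp' hX _ (simple_pull u f) (fun v => ?_)
          rw [← hf v, meet_eq_left (meet_le_right v u)])
      have key : ∀ (m : ℕ) (u : Q (n + 1)), ht u = m → u ≠ top _ →
          Quot.mk (Sim C k) (c u) = c' u := by
        intro m
        induction m using Nat.strong_induction_on with
        | _ m ih =>
          intro u hu hu'
          by_cases h1 : ht u ≤ k + 1
          · rw [hcc u (by simpa [S] using h1), hg]
          · obtain ⟨d, hd, hdd⟩ := hface u hu'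
            obtain ⟨f, hf1, hf2⟩ := exists_face_below u (m := k + 1) (by omega)
            have h2 := sim_of_agree hX (hc.comp hX (simple_extend f u))
              (hd.comp hX (simple_extend f u)) (by
                intro t ht1
                rw [← mk_eq_iff hX]
                simp only [Function.comp]
                have h3 := ht_lt (hf2 t).1 ((hf2 t).2 ht1)
                rw [hdd _ (hf2 t).1]
                refine ih _ (hu ▸ h3) _ rfl ?_
                intro h4
                rw [h4] at h3
                have := ht_mono (w := u) (u := top _) (fun i => Bool.le_true _)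
                omega)
            simp only [Function.comp, hf1] at h2
            rw [(mk_eq_iff hX).2 h2, hdd u le_rfl]
      exact ⟨_, ⟨c, (cube_fin hX).1 hc, rfl⟩, fun v hv => key _ v rfl hv⟩

theorem cube_factor_iff {k : ℕ} {ι : Type} {c : (ι → Bool) → Quot (Sim C k)} :
    Cube (factorCubes C k) ι c ↔ ∃ d, Cube C ι d ∧ c = Quot.mk (Sim C k) ∘ d := by
  constructor
  · rintro ⟨n, e, d, hd, h⟩
    refine ⟨fun v => d (fun j => v (e.symm j)), ⟨n, e, by simpa using hd⟩, ?_⟩
    funext v
    have := congrFun h (fun j => v (e.symm j))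
    simpa using this
  · rintro ⟨d, ⟨n, e, hd⟩, rfl⟩
    exact ⟨n, e, _, hd, rfl⟩

end Pool.Agent.H38Z.Nil
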