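import Pool.Agent.H38Z.Nil.Ind

set_option autoImplicit false

namespace Pool.Agent.H38Z.Nil

open Function Topology Filter

variable {X : Type} [TopologicalSpace X] {ι : Type} [Fintype ι] [DecidableEq ι] [Nonempty ι]
  {C : Cubes X} [CNil C] {m : Fn X} {R : X → Fn (Cub C ι)} {L : ι → Cub C ι → Fn (Cub C ι)}
  {M : Fn (Cub C ι)}

theorem Good.cs (g : Good C m R L M) (i : ι) {F H : C(Cub C ι, ℝ)}
    (hF : ∀ c c', c' ∈ faceSet i c → F c' = F c) (hF1 : ∀ c, |F c| ≤ 1)
    (hH : H.comp (upC C i true) = H) : M (F * H) ^ 2 ≤ M (H.comp (flipC C i) * H) := by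
  let P : C(Cub C ι, ℝ) := ⟨fun c => L i c H, g.L_cont i H⟩
  have key : ∀ F : C(Cub C ι, ℝ), (∀ c c', c' ∈ faceSet i c → F c' = F c) →
      M (F * H) = M (F * P) := fun F hF =>
    g.L_M i _ _ (fun c => ((g.L_mean i c).mul_const (fun a ha => hF c a ha)).symm)
  have hP : ∀ c c', c' ∈ faceSet i c → P c' = P c := fun c c' h => by
    change L i c' H = L i c H
    rw [g.L_congr i c c' h]
  have hPf : P.comp (flipC C i) = P := by
    ext c
    change L i (flipC C i c) H = L i c H
    rw [← hH]
    exact (g.L_flip i c H).symm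
  have hHf : ∀ c c', c' ∈ faceSet i c → H.comp (flipC C i) c' = H.comp (flipC C i) c := by
    intro c c' h
    rw [← hH]
    simp only [ContinuousMap.comp_apply]
    congr 1
    refine Subtype.ext (funext fun v => ?_)
    simp only [upC, flipC, pull_apply]
    exact h _ (by simp)
  have h1 : M (P * P) = M (H.comp (flipC C i) * H) := by
    rw [← key P hP, ← g.M_flip i (P * H), key _ hHf, ContinuousMap.mul_comp, hPf, mul_comm]
  have h2 : M (F * F) ≤ 1 := by
    rw [← g.M_mean.1]
    refine g.M_mean.mono fun a _ => ?_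
    simpa using abs_le_one_iff_mul_self_le_one.1 (hF1 a)
  have h3 : 0 ≤ M (P * P) := g.M_mean.2 _ fun a _ => mul_self_nonneg (P a)
  rw [key F hF, ← h1]
  exact (g.M_mean.cauchy F P).trans (by nlinarith)

/-- Products over a set of vertices. -/
noncomputable def prodOn (C : Cubes X) (S : Finset (ι → Bool)) (f : (ι → Bool) → C(X, ℝ)) :
    C(Cub C ι, ℝ) := ∏ v ∈ S, (f v).comp (ev C v)

omit [Fintype ι] [DecidableEq ι] [Nonempty ι] [CNil C] in
theorem prodOn_apply (S : Finset (ι → Bool)) (f : (ι → Bool) → C(X, ℝ)) (c : Cub C ι) :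
    prodOn C S f c = ∏ v ∈ S, f v (c.1 v) := by
  simp [prodOn]

omit [Fintype ι] [DecidableEq ι] [Nonempty ι] [CNil C] in
theorem abs_prodOn_le (S : Finset (ι → Bool)) {f : (ι → Bool) → C(X, ℝ)}
    (hf : ∀ v x, |f v x| ≤ 1) (c : Cub C ι) : |prodOn C S f c| ≤ 1 := by
  rw [prodOn_apply, Finset.abs_prod]
  exact Finset.prod_le_one (fun _ _ => abs_nonneg _) (fun v _ => hf v _)

theorem Good.step (g : Good C m R L M) (i : ι) {f : (ι → Bool) → C(X, ℝ)}
    (hf : ∀ v x, |f v x| ≤ 1) :
    M (prodOn C Finset.univ f) ^ 2 ≤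
      M (prodOn C Finset.univ (fun v => f (update v i true))) := by
  have hup : ∀ v : ι → Bool, v i = true → update v i true = v := fun v hv => by
    rw [← hv, update_eq_self]
  have h1 := g.cs i (F := prodOn C (Finset.univ.filter fun v => ¬ v i = true) f)
    (H := prodOn C (Finset.univ.filter fun v => v i = true) f) (by
      intro c c' h
      rw [prodOn_apply, prodOn_apply]
      refine Finset.prod_congr rfl fun v hv => ?_
      rw [h v (by simpa using hv)]) (abs_prodOn_le _ hf) (by
      ext c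
      rw [ContinuousMap.comp_apply, prodOn_apply, prodOn_apply]
      refine Finset.prod_congr rfl fun v hv => ?_
      simp only [upC, pull_apply]
      rw [hup v (by simpa using hv)])
  convert h1 using 3
  · rw [prodOn, prodOn, prodOn, mul_comm, Finset.prod_filter_mul_prod_filter_not]
  · ext c
    rw [ContinuousMap.mul_apply, ContinuousMap.comp_apply, prodOn_apply, prodOn_apply,
      prodOn_apply, ← Finset.prod_filter_mul_prod_filter_not Finset.univ (fun v => v i = true),
      mul_comm]
    congr 1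
    · refine Finset.prod_nbij' (fun v => update v i true) (fun v => update v i false) ?_ ?_ ?_ ?_
        ?_
      · intro v _; simp
      · intro v _; simp
      · intro v hv
        have : v i = false := by simpa using hv
        rw [update_idem, ← this, update_eq_self]
      · intro v hv
        rw [update_idem, hup v (by simpa using hv)]
      · intro v hv
        have : v i = false := by simpa using hv
        simp only [flipC, pull_apply, update_self, update_idem, Bool.not_true]
        rw [← this, update_eq_self]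
    · refine Finset.prod_congr rfl fun v hv => ?_
      rw [hup v (by simpa using hv)]

theorem Good.gcs (g : Good C m R L M) {f : (ι → Bool) → C(X, ℝ)} (hf : ∀ v x, |f v x| ≤ 1) :
    |M (prodOn C Finset.univ f)| ^ (2 ^ Fintype.card ι) ≤
      |M (prodOn C Finset.univ (fun _ => f (top ι)))| := by
  have key : ∀ J : Finset ι, |M (prodOn C Finset.univ f)| ^ (2 ^ J.card) ≤
      |M (prodOn C Finset.univ (fun v => f (fill J v)))| := by
    intro J
    induction J using Finset.induction_on with
    | empty =>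
      have : (fun v => f (fill ∅ v)) = f := by
        funext v; congr 1
      simp [this]
    | insert j J hj ih =>
      have h1 := g.step j (f := fun v => f (fill J v)) (fun v => hf _)
      have h2 : (fun v => f (fill J (update v j true))) = fun v => f (fill (insert j J) v) := by
        funext v
        congr 1
        funext i
        by_cases h : i = j
        · subst h; simp [fill]
        · simp [fill, h]
      rw [h2, ← sq_abs] at h1
      rw [Finset.card_insert_of_notMem hj, pow_succ, pow_mul]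
      exact (pow_le_pow_left₀ (by positivity) ih 2).trans (h1.trans (le_abs_self _))
  have h2 : (fun v => f (fill Finset.univ v)) = fun _ => f (top ι) := by
    funext v
    congr 1
    funext i
    simp [fill]
  simpa [h2] using key Finset.univ

theorem abs_prod_sub_prod {α : Type} (S : Finset α) (a b : α → ℝ) (ha : ∀ v, |a v| ≤ 1)
    (hb : ∀ v, |b v| ≤ 1) : |∏ v ∈ S, a v - ∏ v ∈ S, b v| ≤ ∑ v ∈ S, |a v - b v| := by
  classical
  induction S using Finset.induction_on with
  | empty => simp
  | insert j S hj ih =>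
    rw [Finset.prod_insert hj, Finset.prod_insert hj, Finset.sum_insert hj]
    have h1 : |∏ v ∈ S, a v| ≤ 1 := by
      rw [Finset.abs_prod]
      exact Finset.prod_le_one (fun _ _ => abs_nonneg _) (fun v _ => ha v)
    have h2 : a j * ∏ v ∈ S, a v - b j * ∏ v ∈ S, b v =
        (a j - b j) * ∏ v ∈ S, a v + b j * (∏ v ∈ S, a v - ∏ v ∈ S, b v) := by ring
    rw [h2]
    refine (abs_add_le _ _).trans (add_le_add ?_ ?_)
    · rw [abs_mul]
      exact mul_le_of_le_one_right (abs_nonneg _) h1
    · rw [abs_mul]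
      exact (mul_le_of_le_one_left (abs_nonneg _) (hb j)).trans ih

theorem Good.M_top (g : Good C m R L M) (h : C(X, ℝ)) (F : C(Cub C ι, ℝ)) :
    M (h.comp (ev C (top ι)) * F) = m (h * ⟨fun x => R x F, g.R_cont F⟩) :=
  g.M_def _ _ fun x => ((g.R_mean x).mul_const fun a ha => by
    rw [ContinuousMap.comp_apply, ev_apply, show a.1 _ = x from ha]).symm

omit [Fintype ι] [DecidableEq ι] in
theorem bot_ne_top' : (fun _ : ι => false) ≠ top ι := fun h => by
  simpa using congrFun h (Classical.arbitrary ι)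

theorem Good.m_inv (g : Good C m R L M) (x : X) (α : C(X, X)) (hα : IsTranslation C 1 α)
    (h : C(X, ℝ)) : m (h.comp α) = m h := by
  rw [← g.R_marg x _ bot_ne_top', ← g.R_marg (α x) _ bot_ne_top' h, g.R_tr α hα]
  rfl

theorem Good.bound (g : Good C m R L M) (hm : IsMean Set.univ m) {G : Type} (α : G → C(X, X))
    (hα : ∀ t, IsTranslation C 1 (α t))
    (htr : ∀ U V : Set X, IsOpen U → IsOpen V → U.Nonempty → V.Nonempty →
      ∃ t, (α t '' U ∩ V).Nonempty)
    {h : C(X, ℝ)} (h1 : ∀ x, |h x| ≤ 1) {δ : ℝ} (hδ : ∀ t, m |h.comp (α t) - h| ≤ δ) :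
    |M (prodOn C Finset.univ (fun _ => h))| ≤ |m h| + Fintype.card (ι → Bool) * |δ| := by
  obtain ⟨x₀, -⟩ := hm.nonempty
  let S : Finset (ι → Bool) := Finset.univ.erase (top ι)
  let F := prodOn C S (fun _ => h)
  let Φ : C(X, ℝ) := ⟨fun x => R x F, g.R_cont F⟩
  have hΦ1 : ∀ x, |Φ x| ≤ 1 := fun x =>
    (g.R_mean x).abs_le fun a _ => abs_prodOn_le S (fun _ => h1) a
  have hΦ2 : ∀ t x, |Φ (α t x) - Φ x| ≤ Fintype.card (ι → Bool) * |δ| := by
    intro t x
    change |R (α t x) F - R x F| ≤ _
    rw [g.R_tr _ (hα t), ← map_sub]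
    refine ((g.R_mean x).abs_le_of
      (G := ∑ v ∈ S, (|h.comp (α t) - h| : C(X, ℝ)).comp (ev C v)) fun a _ => ?_).trans ?_
    · rw [ContinuousMap.sub_apply, ContinuousMap.comp_apply, prodOn_apply, prodOn_apply]
      refine (abs_prod_sub_prod S _ _ (fun _ => h1 _) (fun _ => h1 _)).trans (le_of_eq ?_)
      simp [tr_apply]
    · rw [map_sum]
      refine (Finset.sum_le_card_nsmul S _ |δ| fun v hv => ?_).trans ?_
      · rw [g.R_marg x v (by simpa [S] using hv)]
        exact (hδ t).trans (le_abs_self _)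
      · rw [nsmul_eq_mul]
        exact mul_le_mul_of_nonneg_right (by exact_mod_cast Finset.card_le_univ S) (abs_nonneg _)
  have hΦ3 : ∀ x, |Φ x - Φ x₀| ≤ Fintype.card (ι → Bool) * |δ| := by
    intro x
    refine le_of_forall_pos_le_add fun η hη => ?_
    obtain ⟨t, _, ⟨u, hu, rfl⟩, hv⟩ := htr {y | |Φ y - Φ x₀| < η / 2} {y | |Φ y - Φ x| < η / 2}
      (isOpen_lt (by fun_prop) continuous_const) (isOpen_lt (by fun_prop) continuous_const)
      ⟨x₀, by simpa using hη⟩ ⟨x, by simpa using hη⟩
    have h2 := hΦ2 t u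
    simp only [Set.mem_ofPred_eq] at hu hv
    rw [abs_lt] at hu hv
    rw [abs_le] at h2 ⊢
    constructor <;> linarith
  have h2 : prodOn C Finset.univ (fun _ => h) = h.comp (ev C (top ι)) * F :=
    (Finset.mul_prod_erase _ _ (Finset.mem_univ (top ι))).symm
  rw [h2, g.M_top]
  change |m (h * Φ)| ≤ _
  have h3 : h * Φ = Φ x₀ • h + h * (Φ - ContinuousMap.const X (Φ x₀)) := by
    ext x; simp; ring
  rw [h3, map_add, map_smul, smul_eq_mul]
  refine (abs_add_le _ _).trans (add_le_add ?_ (hm.abs_le fun x _ => ?_))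
  · rw [abs_mul]
    exact mul_le_of_le_one_left (abs_nonneg _) (hΦ1 x₀)
  · rw [ContinuousMap.mul_apply, abs_mul]
    exact (mul_le_of_le_one_left (abs_nonneg _) (h1 x)).trans (hΦ3 x)

/-- If the uniformity norms of the functions `h n` tend to zero, then `h n` tends weakly to
zero. -/
theorem Good.weak [CompactSpace X] [T2Space X] (g : Good C m R L M) {k : ℕ} (hk : IsStep C k)
    (hι : k + 1 ≤ Fintype.card ι) (h : ℕ → C(X, ℝ)) (h1 : ∀ n x, |h n x| ≤ 1)
    (h2 : Tendsto (fun n => |M (prodOn C Finset.univ (fun _ => h n))|) atTop (𝓝 0))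
    (φ : C(X, ℝ)) : Tendsto (fun n => m (h n * φ)) atTop (𝓝 0) := by
  let S : Finset (ι → Bool) := Finset.univ.erase (top ι)
  let T : ℕ → C(Cub C ι, ℝ) → ℝ := fun n Ψ => M ((h n).comp (ev C (top ι)) * Ψ)
  have hT : ∀ f : (ι → Bool) → C(X, ℝ), (∀ v x, |f v x| ≤ 1) →
      Tendsto (fun n => T n (prodOn C S f)) atTop (𝓝 0) := by
    intro f hf
    rw [Metric.tendsto_atTop]
    intro η hη
    obtain ⟨N, hN⟩ := Metric.tendsto_atTop.1 h2 (η ^ (2 ^ Fintype.card ι)) (by positivity)
    refine ⟨N, fun n hn => ?_⟩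
    have h3 := g.gcs (f := update f (top ι) (h n)) (fun v x => by
      by_cases hv : v = top ι
      · subst hv; simpa using h1 n x
      · simpa [hv] using hf v x)
    have h4 : prodOn C Finset.univ (update f (top ι) (h n)) =
        (h n).comp (ev C (top ι)) * prodOn C S f := by
      rw [prodOn, ← Finset.mul_prod_erase _ _ (Finset.mem_univ (top ι)), update_self]
      congr 1
      refine Finset.prod_congr rfl fun v hv => ?_
      rw [update_of_ne (by simpa [S] using hv)]
    have h5 := hN n hn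
    rw [Real.dist_eq, sub_zero, abs_abs] at h5
    rw [h4, update_self] at h3
    rw [Real.dist_eq, sub_zero]
    exact lt_of_pow_lt_pow_left₀ _ hη.le (h3.trans_lt h5)
  let s : Set C(Cub C ι, ℝ) :=
    {Ψ | ∃ v, v ≠ top ι ∧ ∃ f : C(X, ℝ), (∀ x, |f x| ≤ 1) ∧ Ψ = f.comp (ev C v)}
  have hmon : ∀ Ψ ∈ Submonoid.closure s, ∃ f : (ι → Bool) → C(X, ℝ),
      (∀ v x, |f v x| ≤ 1) ∧ Ψ = prodOn C S f := by
    intro Ψ hΨ
    induction hΨ using Submonoid.closure_induction with
    | mem Ψ hΨ =>
      obtain ⟨v, hv, f, hf, rfl⟩ := hΨ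
      refine ⟨update 1 v f, fun w x => ?_, ?_⟩
      · by_cases hw : w = v
        · subst hw; simpa using hf x
        · simp [hw]
      · rw [prodOn, Finset.prod_eq_single v]
        · simp
        · intro w _ hw
          simp [hw]
        · intro h3
          exact absurd (by simpa [S] using hv) h3
    | one => exact ⟨1, fun _ _ => by simp, by simp [prodOn]⟩
    | mul a b _ _ ha hb =>
      obtain ⟨f, hf, rfl⟩ := ha
      obtain ⟨f', hf', rfl⟩ := hb
      refine ⟨f * f', fun v x => ?_, ?_⟩
      · rw [Pi.mul_apply, ContinuousMap.mul_apply, abs_mul]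
        exact mul_le_one₀ (hf v x) (abs_nonneg _) (hf' v x)
      · simp [prodOn, ← Finset.prod_mul_distrib]
  have halg : ∀ Ψ ∈ Algebra.adjoin ℝ s, Tendsto (fun n => T n Ψ) atTop (𝓝 0) := by
    intro Ψ hΨ
    have h3 : Ψ ∈ Submodule.span ℝ (Submonoid.closure s : Set C(Cub C ι, ℝ)) := by
      rw [← Algebra.adjoin_eq_span]; exact hΨ
    clear hΨ
    induction h3 using Submodule.span_induction with
    | mem Ψ hΨ =>
      obtain ⟨f, hf, rfl⟩ := hmon Ψ hΨ
      exact hT f hf
    | zero => simp [T]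
    | add a b _ _ ha hb => simpa [T, mul_add] using ha.add hb
    | smul c a _ ha => simpa [T] using ha.const_mul c
  have hsep : (Algebra.adjoin ℝ s).SeparatesPoints := by
    intro c d hcd
    obtain ⟨v, hv, hv2⟩ : ∃ v, v ≠ top ι ∧ c.1 v ≠ d.1 v := by
      by_contra h3
      push Not at h3
      apply hcd
      refine Subtype.ext (funext fun v => ?_)
      by_cases hv : v = top ι
      · subst hv
        exact unique (CNil.nil (C := C)) hk hι c.2 d.2 _ h3
      · exact h3 v hv
    obtain ⟨f, hf0, hf1, hf⟩ := exists_continuous_zero_one_of_isClosed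
      (isClosed_singleton (x := c.1 v)) (isClosed_singleton (x := d.1 v)) (by simpa using hv2)
    refine ⟨_, ⟨f.comp (ev C v), Algebra.subset_adjoin ⟨v, hv, f, fun x => ?_, rfl⟩, rfl⟩, ?_⟩
    · rw [abs_of_nonneg (hf x).1]; exact (hf x).2
    · simp [hf0 (Set.mem_singleton _), hf1 (Set.mem_singleton _)]
  have hall : ∀ Ψ, Tendsto (fun n => T n Ψ) atTop (𝓝 0) := by
    intro Ψ
    rw [Metric.tendsto_atTop]
    intro η hη
    obtain ⟨⟨Ψ', hΨ'⟩, h3⟩ := ContinuousMap.exists_mem_subalgebra_near_continuousMap_of_separatesPoints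
      _ hsep Ψ (η / 2) (by positivity)
    obtain ⟨N, hN⟩ := Metric.tendsto_atTop.1 (halg Ψ' hΨ') (η / 2) (by positivity)
    refine ⟨N, fun n hn => ?_⟩
    have h4 := hN n hn
    have h5 : |T n (Ψ' - Ψ)| ≤ ‖Ψ' - Ψ‖ := g.M_mean.abs_le fun a _ => by
      rw [ContinuousMap.mul_apply, abs_mul]
      exact (mul_le_of_le_one_left (abs_nonneg _) (h1 n _)).trans ((Ψ' - Ψ).norm_coe_le_norm a)
    have h6 : T n (Ψ' - Ψ) = T n Ψ' - T n Ψ := by simp [T, mul_sub]
    rw [Real.dist_eq, sub_zero] at h4 ⊢
    rw [h6] at h5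
    have h7 := h5.trans_lt h3
    rw [abs_lt] at h4 h7 ⊢
    constructor <;> linarith
  convert hall (φ.comp (ev C (top ι))) using 2 with n
  simp only [T]
  rw [g.M_top]
  congr 2
  ext x
  change φ x = R x _
  rw [← (g.R_mean x).const (φ x)]
  exact (g.R_mean x).congr fun a ha => by
    rw [ContinuousMap.comp_apply, ev_apply, show a.1 _ = x from ha]; rfl

end Pool.Agent.H38Z.Nil
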