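import Pool.Agent.H38Z.Nil.Factor

set_option autoImplicit false

namespace Pool.Agent.H38Z.Nil

open Function

variable {X : Type} {C : Cubes X}

/-- The map with `x, x'` on the bottom face and `y, y'` on the top face. -/
def pc (k : ℕ) (x x' y y' : X) : (Option (Fin (k + 1)) → Bool) → X := fun w =>
  if ∀ j, w (some j) = true then (if w none = true then y' else x')
  else (if w none = true then y else x)

/-- The relation on pairs defining the structure group. -/
def Rel (C : Cubes X) (k : ℕ) (x x' y y' : X) : Prop := Cube C _ (pc k x x' y y')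

theorem card_opt (k : ℕ) : Fintype.card (Option (Fin (k + 1))) = k + 2 := by simp

theorem rel_refl (hX : IsNilspace C) {k : ℕ} {x x' : X} (h : Sim C k x x') :
    Rel C k x x' x x' :=
  ((sim_iff hX).1 h).comp' hX (fun w j => w (some j))
    (fun j => Or.inr (Or.inl ⟨some j, fun _ => rfl⟩)) (fun w => by simp [pc, basic])

theorem Rel.sim (hX : IsNilspace C) {k : ℕ} {x x' y y' : X} (h : Rel C k x x' y y') :
    Sim C k x x' :=
  (sim_iff hX).2 (Cube.comp' hX h (fun t o => o.elim false t) (by
    rintro (_ | j)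
    · exact Or.inl ⟨false, fun _ => rfl⟩
    · exact Or.inr (Or.inl ⟨j, fun _ => rfl⟩)) (fun t => by simp [pc, basic]))

theorem Rel.symm (hX : IsNilspace C) {k : ℕ} {x x' y y' : X} (h : Rel C k x x' y y') :
    Rel C k y y' x x' :=
  Cube.comp' hX h _ (simple_flip none) (fun w => by
    cases h1 : w none <;> simp [pc, h1])

theorem Rel.trans (hX : IsNilspace C) {k : ℕ} {x x' y y' z z' : X} (h : Rel C k x x' y y')
    (h' : Rel C k y y' z z') : Rel C k x x' z z' := by
  have := concat hX none h h' (fun v => by simp [pc])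
  unfold Rel
  convert this using 2 with v
  cases h1 : v none <;> simp [pc, h1]

theorem rel_exists (hX : IsNilspace C) {k : ℕ} {x x' : X} (h : Sim C k x x') (y : X) :
    ∃ y', Rel C k x x' y y' := by
  obtain ⟨c, hc, hcc⟩ := complete hX (pc k x x' y y) (by
    rintro (_ | j)
    · exact Cube.comp' hX (rel_refl hX h) _ (simple_update none false) (fun w => by simp [pc])
    · have := cube_coord hX (none : Option (Fin (k + 1))) x y
      convert this using 2 with v
      have h1 : ¬ ∀ j', update v (some j) false (some j') = true := fun h1 => by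
        simpa using h1 j
      simp only [pc, if_neg h1]
      simp)
  refine ⟨c (top _), ?_⟩
  unfold Rel
  convert hc using 1
  funext v
  by_cases hv : v = top _
  · subst hv; simp [pc]
  · rw [hcc v hv]
    simp only [pc]
    split_ifs with h1 h2
    · exact absurd (funext fun o => by cases o <;> simp [h1, h2]) hv
    all_goals rfl

theorem pc_eq {k : ℕ} (x x' y y' y'' : X) (v : Option (Fin (k + 1)) → Bool) (hv : v ≠ top _) :
    pc k x x' y y' v = pc k x x' y y'' v := by
  simp only [pc]
  split_ifs with h1 h2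
  · exact absurd (funext fun o => by cases o <;> simp [h1, h2]) hv
  all_goals rfl

theorem rel_unique (hX : IsNilspace C) {k : ℕ} (hk : IsStep C (k + 1)) {x x' y y' y'' : X}
    (h : Rel C k x x' y y') (h' : Rel C k x x' y y'') : y' = y'' := by
  have := unique hX hk (by simp) h h' (top _) (fun v hv => pc_eq _ _ _ _ _ v hv)
  simpa [pc] using this

/-- The elements of the structure group, as maps. -/
def IsZ (C : Cubes X) (k : ℕ) (τ : X → X) : Prop := ∀ y y', Rel C k y (τ y) y' (τ y')

theorem exists_Z (hX : IsNilspace C) {k : ℕ} (hk : IsStep C (k + 1)) {x x' : X}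
    (h : Sim C k x x') : ∃ τ, IsZ C k τ ∧ τ x = x' := by
  choose τ hτ using rel_exists hX h
  exact ⟨τ, fun y y' => ((hτ y).symm hX).trans hX (hτ y'),
    rel_unique hX hk (hτ x) (rel_refl hX h)⟩

theorem IsZ.ext (hX : IsNilspace C) {k : ℕ} (hk : IsStep C (k + 1)) {τ σ : X → X}
    (hτ : IsZ C k τ) (hσ : IsZ C k σ) {x : X} (h : τ x = σ x) : τ = σ :=
  funext fun y => rel_unique hX hk (hτ x y) (h ▸ hσ x y)

theorem IsZ.sim (hX : IsNilspace C) {k : ℕ} {τ : X → X} (hτ : IsZ C k τ) (x : X) :
    Sim C k x (τ x) := (hτ x x).sim hX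

theorem isZ_id (hX : IsNilspace C) (k : ℕ) : IsZ C k id := by
  intro y y'
  have := cube_coord hX (none : Option (Fin (k + 1))) y y'
  unfold Rel
  convert this using 2 with v
  simp [pc]

theorem Rel.general (hX : IsNilspace C) {k : ℕ} {x x' y y' : X} (h : Rel C k x x' y y')
    {ι : Type} [Fintype ι] [DecidableEq ι] (hι : Fintype.card ι = k + 2) (i : ι) :
    Cube C ι (fun v => if ∀ j, j ≠ i → v j = true then (if v i = true then y' else x')
      else (if v i = true then y else x)) := by
  have hc : Fintype.card {j // j ≠ i} = k + 1 := by simp [hι]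
  let e := (Fintype.equivFinOfCardEq hc).symm
  refine Cube.comp' hX h (fun v o => o.elim (v i) (fun j => v (e j).1)) ?_ ?_
  · rintro (_ | j)
    · exact Or.inr (Or.inl ⟨i, fun _ => rfl⟩)
    · exact Or.inr (Or.inl ⟨(e j).1, fun _ => rfl⟩)
  · intro v
    have h1 : (∀ j, j ≠ i → v j = true) ↔ ∀ j, v (e j).1 = true := by
      refine ⟨fun h1 j => h1 _ (e j).2, fun h1 j hj => ?_⟩
      simpa using h1 (e.symm ⟨j, hj⟩)
    simp only [pc, Option.elim, h1]
    congr

theorem edge_top (hX : IsNilspace C) {k : ℕ} {τ : X → X} (hτ : IsZ C k τ)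
    {ι : Type} [Fintype ι] [DecidableEq ι] (hι : Fintype.card ι = k + 2) (i : ι)
    {c : (ι → Bool) → X} (hc : Cube C ι c) :
    Cube C ι (fun v => if ∀ j, j ≠ i → v j = true then τ (c v) else c v) := by
  have h1 := (hτ (c (update (top ι) i false)) (c (top ι))).general hX hι i
  have h2 := modify hX (Finset.univ.erase i) hc h1 (by
    intro v hv
    have h3 : ¬ ∀ j, j ≠ i → v j = true := fun h3 => hv fun j hj => h3 j (by simpa using hj)
    rw [if_neg h3]
    cases h4 : v i
    · simp only [Bool.false_eq_true, if_false]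
      congr 1
      funext j
      by_cases h5 : j = i
      · subst h5; simp [fill, h4]
      · simp [fill, h5]
    · simp only [if_true]
      congr 1
      funext j
      by_cases h5 : j = i
      · subst h5; simp [fill, h4]
      · simp [fill, h5])
  convert h2 using 2 with v
  simp only [Finset.mem_erase, Finset.mem_univ, and_true]
  split_ifs with h3 h4
  · congr 2
    funext j
    by_cases h5 : j = i
    · subst h5; exact h4
    · exact h3 j h5
  · congr 2
    funext j
    by_cases h5 : j = i
    · subst h5; simpa using h4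
    · simp [h5, h3 j h5]
  · rfl

theorem edge (hX : IsNilspace C) {k : ℕ} {τ : X → X} (hτ : IsZ C k τ)
    {ι : Type} [Fintype ι] [DecidableEq ι] (hι : Fintype.card ι = k + 2) (i : ι) (u : ι → Bool)
    {c : (ι → Bool) → X} (hc : Cube C ι c) :
    Cube C ι (fun v => if ∀ j, j ≠ i → v j = u j then τ (c v) else c v) := by
  have h1 := edge_top hX hτ hι i (hc.comp hX (simple_refl u))
  refine h1.comp' hX (refl u) (simple_refl u) (fun v => ?_)
  simp only [refl_apply_eq, Function.comp, refl_refl]

theorem IsZ.comp (hX : IsNilspace C) {k : ℕ} {τ σ : X → X} (hτ : IsZ C k τ) (hσ : IsZ C k σ) :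
    IsZ C k (τ ∘ σ) := by
  intro y y'
  have := edge_top hX hτ (card_opt k) none (hσ y y')
  unfold Rel
  convert this using 2 with v
  have h1 : (∀ j, j ≠ none → v j = true) ↔ ∀ j, v (some j) = true := by
    refine ⟨fun h1 j => h1 _ (by simp), ?_⟩
    rintro h1 (_ | j) hj
    · exact absurd rfl hj
    · exact h1 j
  simp only [pc, h1]
  split_ifs <;> rfl

theorem IsZ.exists_inv (hX : IsNilspace C) {k : ℕ} (hk : IsStep C (k + 1)) {τ : X → X}
    (hτ : IsZ C k τ) : ∃ σ, IsZ C k σ ∧ σ ∘ τ = id ∧ τ ∘ σ = id := by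
  rcases isEmpty_or_nonempty X with h | ⟨⟨x⟩⟩
  · exact ⟨id, isZ_id hX k, Subsingleton.elim _ _, Subsingleton.elim _ _⟩
  obtain ⟨σ, hσ, h1⟩ := exists_Z hX hk ((sim_equivalence hX k).symm (hτ.sim hX x))
  refine ⟨σ, hσ, (hσ.comp hX hτ).ext hX hk (isZ_id hX k) (x := x) h1,
    (hτ.comp hX hσ).ext hX hk (isZ_id hX k) (x := τ x) (by simp [h1])⟩

theorem IsZ.comm (hX : IsNilspace C) {k : ℕ} (hk : IsStep C (k + 1)) {τ σ : X → X}
    (hτ : IsZ C k τ) (hσ : IsZ C k σ) : τ ∘ σ = σ ∘ τ := by
  funext x
  have h0 := cube_const hX (ι := Option (Fin (k + 1))) x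
  have h1 := edge_top hX hτ (card_opt k) none (edge_top hX hσ (card_opt k) (some 0) h0)
  have h2 := edge_top hX hσ (card_opt k) (some 0) (edge_top hX hτ (card_opt k) none h0)
  have := unique hX hk (by simp) h1 h2 (top _) (by
    intro v hv
    split_ifs with h3 h4
    · refine absurd (funext fun o => ?_) hv
      by_cases h5 : o = none
      · exact h4 o (by simp [h5])
      · exact h3 o h5
    all_goals rfl)
  simpa using this

/-- The hypotheses of the inductive step. -/
class NilStep (C : Cubes X) (k : ℕ) : Prop where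
  nil : IsNilspace C
  step : IsStep C (k + 1)

/-- The structure group. -/
def Zg (C : Cubes X) (k : ℕ) : Type := {τ : X → X // IsZ C k τ}

variable {k : ℕ}

noncomputable instance [h : NilStep C k] : CommGroup (Zg C k) where
  mul τ σ := ⟨τ.1 ∘ σ.1, τ.2.comp h.nil σ.2⟩
  one := ⟨id, isZ_id h.nil k⟩
  inv τ := ⟨(τ.2.exists_inv h.nil h.step).choose, (τ.2.exists_inv h.nil h.step).choose_spec.1⟩
  mul_assoc _ _ _ := rfl
  one_mul _ := rfl
  mul_one _ := rfl
  inv_mul_cancel τ := Subtype.ext (τ.2.exists_inv h.nil h.step).choose_spec.2.1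
  mul_comm τ σ := Subtype.ext (τ.2.comm h.nil h.step σ.2)

noncomputable instance [NilStep C k] : MulAction (Zg C k) X where
  smul τ x := τ.1 x
  one_smul _ := rfl
  mul_smul _ _ _ := rfl

theorem Zg.smul_def [NilStep C k] (τ : Zg C k) (x : X) : τ • x = τ.1 x := rfl

theorem Zg.sim [h : NilStep C k] (τ : Zg C k) (x : X) : Sim C k x (τ • x) := τ.2.sim h.nil x

theorem Zg.mk_smul [h : NilStep C k] (τ : Zg C k) (x : X) :
    Quot.mk (Sim C k) (τ • x) = Quot.mk (Sim C k) x :=
  ((mk_eq_iff h.nil).2 (τ.sim x)).symm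

theorem Zg.exists_smul [h : NilStep C k] {x y : X} (hxy : Sim C k x y) :
    ∃ τ : Zg C k, τ • x = y := by
  obtain ⟨τ, h1, h2⟩ := exists_Z h.nil h.step hxy
  exact ⟨⟨τ, h1⟩, h2⟩

theorem Zg.eq_of_smul [h : NilStep C k] {τ σ : Zg C k} {x : X} (hx : τ • x = σ • x) : τ = σ :=
  Subtype.ext (τ.2.ext h.nil h.step σ.2 hx)

/-- Functions to the structure group which preserve cubes, together with their inverses. -/
def Esub (C : Cubes X) (k : ℕ) [NilStep C k] (ι : Type) : Subgroup ((ι → Bool) → Zg C k) where
  carrier := {κ | ∀ d : (ι → Bool) → X, Cube C ι d ↔ Cube C ι (κ • d)}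
  mul_mem' := by
    intro a b ha hb d
    rw [mul_smul, ← ha, ← hb]
  one_mem' := by intro d; rw [one_smul]
  inv_mem' := by
    intro a ha d
    rw [ha (a⁻¹ • d), smul_inv_smul]

theorem mem_Esub_of [NilStep C k] {ι : Type} {κ : (ι → Bool) → Zg C k}
    (h1 : ∀ d, Cube C ι d → Cube C ι (κ • d)) (h2 : ∀ d, Cube C ι d → Cube C ι (κ⁻¹ • d)) :
    κ ∈ Esub C k ι := fun d => ⟨h1 d, fun h => by simpa using h2 _ h⟩

theorem edge_mem [h : NilStep C k] {ι : Type} [Fintype ι] [DecidableEq ι]
    (hι : Fintype.card ι = k + 2) (i : ι) (u : ι → Bool) (hi : u i = false) (z : Zg C k) :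
    (Pi.mulSingle u z * Pi.mulSingle (update u i true) z : (ι → Bool) → Zg C k) ∈ Esub C k ι := by
  have hne : update u i true ≠ u := fun h1 => by simpa [hi] using congrFun h1 i
  have key : ∀ (z : Zg C k) d, Cube C ι d → Cube C ι
      ((Pi.mulSingle u z * Pi.mulSingle (update u i true) z : (ι → Bool) → Zg C k) • d) := by
    intro z d hd
    convert edge h.nil z.2 hι i u hd using 2 with v
    simp only [Pi.smul_apply', Pi.mul_apply]
    by_cases h1 : v = u
    · subst h1
      simp [Pi.mulSingle_eq_of_ne hne.symm, Zg.smul_def]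
    · by_cases h2 : v = update u i true
      · subst h2
        rw [if_pos (fun j hj => by simp [hj])]
        simp [Pi.mulSingle_eq_of_ne hne, Zg.smul_def]
      · rw [if_neg]
        · simp [Pi.mulSingle_eq_of_ne h1, Pi.mulSingle_eq_of_ne h2]
        · intro h3
          cases h4 : v i
          · apply h1
            funext j
            by_cases h5 : j = i
            · rw [h5, h4, hi]
            · exact h3 j h5
          · apply h2
            funext j
            by_cases h5 : j = i
            · subst h5; simp [h4]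
            · simp [h5, h3 j h5]
  refine mem_Esub_of (key z) (fun d hd => ?_)
  have := key z⁻¹ d hd
  rwa [Pi.mulSingle_inv, Pi.mulSingle_inv, ← mul_inv] at this

theorem fibre_crit [h : NilStep C k] {ι : Type} [Fintype ι] [DecidableEq ι]
    (hι : Fintype.card ι = k + 2) {κ : (ι → Bool) → Zg C k} {c : (ι → Bool) → X}
    (hc : Cube C ι c) (hκ : Cube C ι (κ • c)) : κ ∈ Esub C k ι := by
  have single : ∀ (m : ℕ) (u : ι → Bool), Fintype.card ι - ht u = m → ∀ z : Zg C k,
      ∃ z' : Zg C k, (Pi.mulSingle u z * Pi.mulSingle (top ι) z' : (ι → Bool) → Zg C k) ∈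
        Esub C k ι := by
    intro m
    induction m using Nat.strong_induction_on with
    | _ m ih =>
      intro u hu z
      by_cases h1 : u = top ι
      · subst h1
        refine ⟨z⁻¹, ?_⟩
        rw [← Pi.mulSingle_mul, mul_inv_cancel, Pi.mulSingle_one]
        exact one_mem _
      · obtain ⟨i, hi⟩ : ∃ i, u i = false := by
          by_contra h2
          apply h1
          funext i
          by_contra h3
          exact h2 ⟨i, by simpa using h3⟩
        have h2 : ht u < ht (update u i true) := ht_lt (by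
          intro j
          by_cases h3 : j = i
          · subst h3; simp
          · simp [h3]) (fun h3 => by simpa [hi] using congrFun h3 i)
        have h3 : ht (update u i true) ≤ Fintype.card ι := by
          rw [← ht_top]; exact ht_mono (fun j => Bool.le_true _)
        obtain ⟨z', hz'⟩ := ih _ (by omega) (update u i true) rfl z⁻¹
        refine ⟨z', ?_⟩
        have := mul_mem (edge_mem hι i u hi z) hz'
        rwa [mul_assoc, Pi.mulSingle_inv, mul_inv_cancel_left] at this
  have all : ∀ κ : (ι → Bool) → Zg C k, ∃ z : Zg C k,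
      (κ * Pi.mulSingle (top ι) z : (ι → Bool) → Zg C k) ∈ Esub C k ι := by
    intro κ
    induction κ using Pi.mulSingle_induction with
    | one => exact ⟨1, by simp [one_mem]⟩
    | mul a b ha hb =>
      obtain ⟨z, hz⟩ := ha
      obtain ⟨z', hz'⟩ := hb
      refine ⟨z * z', ?_⟩
      have := mul_mem hz hz'
      rwa [mul_mul_mul_comm, ← Pi.mulSingle_mul] at this
    | mulSingle u z => exact single _ u rfl z
  obtain ⟨z, hz⟩ := all κ
  have h1 : Cube C ι ((Pi.mulSingle (top ι) z : (ι → Bool) → Zg C k) • κ • c) := by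
    rw [← mul_smul, mul_comm]
    exact (hz c).1 hc
  have h2 := unique h.nil h.step hι.ge h1 hκ (top ι) (fun v hv => by
    simp [Pi.smul_apply', Pi.mulSingle_eq_of_ne hv])
  have h3 : z = 1 := by
    apply Zg.eq_of_smul (x := (κ • c) (top ι))
    simpa [Pi.smul_apply'] using h2
  simpa [h3] using hz

/-- The fibre condition: the difference of two cubes preserves all cubes. -/
theorem fibre [h : NilStep C k] {ι : Type} [Fintype ι]
    {κ : (ι → Bool) → Zg C k} {c : (ι → Bool) → X}
    (hc : Cube C ι c) (hκ : Cube C ι (κ • c)) : κ ∈ Esub C k ι := by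
  classical
  have key : ∀ (κ : (ι → Bool) → Zg C k) (c : (ι → Bool) → X), Cube C ι c → Cube C ι (κ • c) →
      ∀ d, Cube C ι d → Cube C ι (κ • d) := by
    intro κ c hc hκ d hd
    by_cases hι : Fintype.card ι ≤ k + 1
    · exact replace h.nil hι hd (fun v => Zg.sim _ _)
    · refine cube_of_faces h.nil h.step (by omega) (fun f w => ?_)
      have h1 := simple_extend f w
      exact (fibre_crit (κ := κ ∘ fun t => Function.extend f t w) (by simp) (hc.comp h.nil h1)
        (hκ.comp h.nil h1) _).1 (hd.comp h.nil h1)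
  exact mem_Esub_of (key κ c hc hκ) (key κ⁻¹ (κ • c) hκ (by simpa using hc))

theorem Esub.comp [h : NilStep C k] [Nonempty X] {ι ι' : Type} [Fintype ι] [Fintype ι']
    {κ : (ι → Bool) → Zg C k} (hκ : κ ∈ Esub C k ι) {φ : (ι' → Bool) → (ι → Bool)}
    (hφ : Simple φ) : κ ∘ φ ∈ Esub C k ι' := by
  obtain ⟨x⟩ := ‹Nonempty X›
  exact fibre (cube_const h.nil x) (((hκ _).1 (cube_const h.nil x)).comp h.nil hφ)

theorem Esub.const [h : NilStep C k] [Nonempty X] (ι : Type) [Fintype ι] (z : Zg C k) :
    (fun _ => z) ∈ Esub C k ι := by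
  obtain ⟨x⟩ := ‹Nonempty X›
  exact fibre (cube_const h.nil x) (cube_const h.nil (z • x))

theorem Esub.coord [h : NilStep C k] [Nonempty X] {ι : Type} [Fintype ι] (i : ι)
    (z z' : Zg C k) : (fun v => if v i = true then z' else z) ∈ Esub C k ι := by
  obtain ⟨x⟩ := ‹Nonempty X›
  refine fibre (cube_const h.nil x) ?_
  convert cube_coord h.nil i (z • x) (z' • x) using 2 with v
  simp only [Pi.smul_apply']
  split_ifs <;> rfl

theorem exists_Esub [h : NilStep C k] {ι : Type} [Fintype ι] {c d : (ι → Bool) → X}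
    (hc : Cube C ι c) (hd : Cube C ι d)
    (hcd : ∀ v, Quot.mk (Sim C k) (c v) = Quot.mk (Sim C k) (d v)) :
    ∃ κ ∈ Esub C k ι, κ • c = d := by
  choose κ hκ using fun v => Zg.exists_smul ((mk_eq_iff h.nil).1 (hcd v))
  have h1 : κ • c = d := funext hκ
  exact ⟨κ, fibre hc (h1 ▸ hd), h1⟩

theorem Zg.isTranslation [h : NilStep C k] (τ : Zg C k) :
    IsTranslation C (k + 1) (fun x => τ • x) := by
  intro n c hc S b hS
  let x := c b
  let κ : Q n → Zg C k := fun v => if ∀ i ∈ S, v i = b i then τ else 1
  have h1 : Cube C (Fin n) (κ • fun _ => x) := by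
    refine ((τ.sim x).basic h.nil (ι := S) (by simp [hS])).comp' h.nil
      (fun v i => refl b v i.1) (fun i => simple_refl b i.1) (fun v => ?_)
    simp only [basic, refl_apply_eq, Pi.smul_apply', κ, Subtype.forall]
    split_ifs
    · rfl
    · exact one_smul _ _
  have h2 := (fibre (cube_const h.nil x) h1 c).1 ((cube_fin h.nil).2 hc)
  rw [← cube_fin h.nil]
  convert h2 using 2 with v
  simp only [Pi.smul_apply', κ]
  split_ifs
  · rfl
  · exact (one_smul _ _).symm

theorem IsTranslation.face (_hX : IsNilspace C) {α : X → X} (hα : IsTranslation C 1 α)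
    {ι : Type} {c : (ι → Bool) → X} (hc : Cube C ι c) (i : ι) (b : Bool) :
    Cube C ι (fun v => if v i = b then α (c v) else c v) := by
  obtain ⟨n, e, hc⟩ := hc
  refine ⟨n, e, ?_⟩
  simpa using hα n _ hc {e i} (fun _ => b) (by simp)

theorem IsTranslation.cube (hX : IsNilspace C) {α : X → X} (hα : IsTranslation C 1 α)
    {ι : Type} [Nonempty ι] {c : (ι → Bool) → X} (hc : Cube C ι c) : Cube C ι (α ∘ c) := by
  obtain ⟨i⟩ := ‹Nonempty ι›
  convert hα.face hX (hα.face hX hc i true) i false using 2 with v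
  cases v i <;> simp

theorem IsTranslation.sim (hX : IsNilspace C) {α : X → X} (hα : IsTranslation C 1 α)
    {x y : X} (h : Sim C k x y) : Sim C k (α x) (α y) := by
  rw [sim_iff hX] at h ⊢
  convert hα.cube hX h using 1
  funext v
  simp only [basic, Function.comp]
  split_ifs <;> rfl

theorem IsTranslation.smul [h : NilStep C k] {α : X → X} (hα : IsTranslation C 1 α)
    (τ : Zg C k) (x : X) : α (τ • x) = τ • α x := by
  refine rel_unique h.nil h.step (x := x) (x' := τ • x) (y := α x) ?_ (τ.2 x (α x))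
  unfold Rel
  convert hα.face h.nil (τ.2 x x) none true using 2 with v
  simp only [pc, Zg.smul_def]
  split_ifs <;> rfl

theorem IsTranslation.factor (hX : IsNilspace C) {α : X → X} (hα : IsTranslation C 1 α) :
    IsTranslation (factorCubes C k) 1 (Quot.map α (fun _ _ h => hα.sim hX h)) := by
  rintro n _ ⟨c, hc, rfl⟩ S b hS
  refine ⟨_, hα n c hc S b hS, ?_⟩
  funext v
  simp only [Function.comp]
  split_ifs <;> rfl

end Pool.Agent.H38Z.Nil
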