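import Pool.Agent.H38Z.Nil.Top

set_option autoImplicit false

namespace Pool.Agent.H38Z.Nil

open Function Topology

/-- The projection to the factor as a continuous map. -/
def mkC {X : Type} [TopologicalSpace X] (C : Cubes X) (k : ℕ) : C(X, Quot (Sim C k)) :=
  ⟨Quot.mk _, continuous_quot_mk⟩

/-- The functional version of the Haar measure. -/
def HaarFn : (k : ℕ) → (X : Type) → [TopologicalSpace X] → Cubes X → Fn X → Prop
  | 0, _, _, _, m => IsMean Set.univ m
  | k + 1, X, _, C, m => IsMean Set.univ m ∧
      (∀ τ : X ≃ₜ X, IsTranslation C (k + 1) τ → ∀ F : C(X, ℝ), m (F.comp τ) = m F) ∧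
      HaarFn k (Quot (Sim C k)) (factorCubes C k) (push (mkC C k) m)

variable {X : Type} [TopologicalSpace X] {ι : Type} [Fintype ι] [DecidableEq ι]

/-- Reflection in the direction `i`. -/
def flipC (C : Cubes X) [CNil C] (i : ι) : C(Cub C ι, Cub C ι) :=
  pull (fun v => update v i (!v i)) (simple_flip i)

/-- Projection onto a face. -/
def upC (C : Cubes X) [CNil C] (i : ι) (b : Bool) : C(Cub C ι, Cub C ι) :=
  pull (fun v => update v i b) (simple_update i b)

/-- Cubes with prescribed top vertex. -/
def rootSet (C : Cubes X) (ι : Type) (x : X) : Set (Cub C ι) := {c | c.1 (top ι) = x}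

/-- Cubes with prescribed lower face. -/
def faceSet {C : Cubes X} (i : ι) (c : Cub C ι) : Set (Cub C ι) :=
  {c' | ∀ v, v i = false → c'.1 v = c.1 v}

/-- The system of means on the cube space. -/
structure Good (C : Cubes X) [CNil C] [Nonempty ι] (m : Fn X) (R : X → Fn (Cub C ι))
    (L : ι → Cub C ι → Fn (Cub C ι)) (M : Fn (Cub C ι)) : Prop where
  R_mean : ∀ x, IsMean (rootSet C ι x) (R x)
  R_cont : ∀ F, Continuous fun x => R x F
  R_marg : ∀ x v, v ≠ top ι → ∀ g : C(X, ℝ), R x (g.comp (ev C v)) = m g
  R_tr : ∀ (α : C(X, X)) (hα : IsTranslation C 1 α) x F, R (α x) F = R x (F.comp (tr α hα))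
  M_def : ∀ F (G : C(X, ℝ)), (∀ x, G x = R x F) → M F = m G
  M_mean : IsMean Set.univ M
  M_flip : ∀ i (F : C(Cub C ι, ℝ)), M (F.comp (flipC C i)) = M F
  L_mean : ∀ i c, IsMean (faceSet i c) (L i c)
  L_cont : ∀ i F, Continuous fun c => L i c F
  L_congr : ∀ i c c', c' ∈ faceSet i c → L i c' = L i c
  L_M : ∀ i F (G : C(Cub C ι, ℝ)), (∀ c, G c = L i c F) → M F = M G
  L_flip : ∀ i c (F : C(Cub C ι, ℝ)),
    L i c (F.comp (upC C i true)) = L i (flipC C i c) (F.comp (upC C i true))

/-- Evaluation as a functional. -/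
def evFn {A : Type} [TopologicalSpace A] (a : A) : Fn A where
  toFun F := F a
  map_add' _ _ := rfl
  map_smul' _ _ := rfl

theorem IsMean.nonempty {A : Type} [TopologicalSpace A] {T : Set A} {m : Fn A}
    (h : IsMean T m) : T.Nonempty := by
  by_contra h1
  rw [Set.not_nonempty_iff_eq_empty] at h1
  have := h.2 (-1) (by simp [h1])
  rw [map_neg, h.1] at this
  linarith

/-- The composition of a mean with a continuous family of means. -/
noncomputable def bind {A D : Type} [TopologicalSpace A] [TopologicalSpace D] (m : Fn D)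
    (R : D → Fn A) (hR : ∀ F, Continuous fun x => R x F) : Fn A where
  toFun F := m ⟨fun x => R x F, hR F⟩
  map_add' F G := by
    rw [← map_add]; congr 1; ext x; simp
  map_smul' c F := by
    rw [RingHom.id_apply, ← map_smul]; congr 1; ext x; simp

theorem bind_eq {A D : Type} [TopologicalSpace A] [TopologicalSpace D] (m : Fn D)
    (R : D → Fn A) (hR : ∀ F, Continuous fun x => R x F) (F : C(A, ℝ)) (G : C(D, ℝ))
    (h : ∀ x, G x = R x F) : bind m R hR F = m G := by
  change m _ = m G
  congr 1
  ext x
  exact (h x).symm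

theorem IsMean.bind {A D : Type} [TopologicalSpace A] [TopologicalSpace D] {m : Fn D}
    (hm : IsMean Set.univ m) {R : D → Fn A} (hR : ∀ F, Continuous fun x => R x F)
    {T : D → Set A} (hT : ∀ x, IsMean (T x) (R x)) : IsMean Set.univ (bind m R hR) :=
  ⟨(bind_eq m R hR 1 1 fun x => (hT x).1.symm).trans hm.1,
    fun F hF => hm.2 _ fun x _ => (hT x).2 F fun a _ => hF a trivial⟩

theorem good_zero (C : Cubes X) [h : CNil C] [Nonempty ι] (hs : IsStep C 0) {m : Fn X}
    (hm : IsMean Set.univ m) : ∃ R L M, Good (ι := ι) C m R L M := by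
  obtain ⟨x₀, -⟩ := hm.nonempty
  have hsub : ∀ x y : X, x = y := by
    intro x y
    have := hs (fun _ => x) (by rw [h.nil.ergodic]; trivial)
      (fun w => if w 0 = true then y else x) (by rw [h.nil.ergodic]; trivial) (by
        intro v hv
        rw [if_neg]
        intro h1
        apply hv
        funext j
        rw [show j = 0 from Fin.ext (by omega), h1])
    simpa using congrFun this (fun _ => true)
  have hsub2 : ∀ c d : Cub C ι, c = d := fun c d => Subtype.ext (funext fun _ => hsub _ _)
  let c₀ : Cub C ι := ⟨fun _ => x₀, cube_const h.nil x₀⟩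
  have hmean : ∀ T : Set (Cub C ι), c₀ ∈ T → IsMean T (evFn c₀) :=
    fun T hT => ⟨rfl, fun F hF => hF _ hT⟩
  have hm' : ∀ g : C(X, ℝ), m g = g x₀ := fun g => by
    rw [← hm.const (g x₀)]
    exact hm.congr fun a _ => by rw [hsub a x₀]; rfl
  refine ⟨fun _ => evFn c₀, fun _ _ => evFn c₀, evFn c₀, fun x => hmean _ (hsub _ _),
    fun _ => continuous_const, fun x v _ g => (hm' g).symm, fun α hα x F => ?_, fun F G hG => ?_,
    hmean _ trivial, fun i F => ?_, fun i c => hmean _ (fun _ _ => hsub _ _),
    fun _ _ => continuous_const, fun _ _ _ _ => rfl, fun i F G hG => (hG c₀).symm,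
    fun _ _ _ => rfl⟩
  · exact congrArg F (hsub2 _ _)
  · rw [hm', hG]
  · exact congrArg F (hsub2 _ _)

variable [CompactSpace X] [T2Space X] {C : Cubes X} {k : ℕ} [CNil C] [NilStep C k]

/-- The subgroup fixing the top vertex. -/
def Kroot (C : Cubes X) (k : ℕ) [NilStep C k] (ι : Type) : Subgroup (Esub C k ι) where
  carrier := {κ | κ.1 (top ι) = 1}
  mul_mem' := by
    intro a b ha hb
    change a.1 _ * b.1 _ = 1
    rw [show a.1 _ = 1 from ha, show b.1 _ = 1 from hb, mul_one]
  one_mem' := rfl
  inv_mem' := by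
    intro a ha
    change (a.1 _)⁻¹ = 1
    rw [show a.1 _ = 1 from ha, inv_one]

/-- The subgroup fixing the lower face. -/
def Kface (C : Cubes X) (k : ℕ) [NilStep C k] (i : ι) : Subgroup (Esub C k ι) where
  carrier := {κ | ∀ v, v i = false → κ.1 v = 1}
  mul_mem' := by
    intro a b ha hb v hv
    change a.1 _ * b.1 _ = 1
    rw [ha v hv, hb v hv, mul_one]
  one_mem' := fun _ _ => rfl
  inv_mem' := by
    intro a ha v hv
    change (a.1 _)⁻¹ = 1
    rw [ha v hv, inv_one]

omit [Fintype ι] [DecidableEq ι] [CompactSpace X] [CNil C] in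
theorem isClosed_Kroot : IsClosed (Kroot C k ι : Set (Esub C k ι)) :=
  isClosed_eq ((continuous_apply (top ι)).comp continuous_subtype_val) continuous_const

omit [Fintype ι] [DecidableEq ι] [CompactSpace X] [CNil C] in
theorem isClosed_Kface (i : ι) : IsClosed (Kface C k i : Set (Esub C k ι)) := by
  have : (Kface C k i : Set (Esub C k ι)) = ⋂ v : ι → Bool, ⋂ _ : v i = false,
      {κ : Esub C k ι | κ.1 v = 1} := by
    ext κ
    simp only [Set.mem_iInter]
    rfl
  rw [this]
  exact isClosed_iInter fun v => isClosed_iInter fun _ =>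
    isClosed_eq ((continuous_apply v).comp continuous_subtype_val) continuous_const

omit [Fintype ι] [DecidableEq ι] [CompactSpace X] [CNil C] [NilStep C k] in
theorem isClosed_rootSet (x : X) : IsClosed (rootSet C ι x) :=
  isClosed_eq (ev C (top ι)).continuous continuous_const

omit [Fintype ι] [DecidableEq ι] [CompactSpace X] [CNil C] [NilStep C k] in
theorem isClosed_faceGraph (i : ι) :
    IsClosed {x : Cub C ι × Cub C ι | x.2 ∈ faceSet i x.1} := by
  have : {x : Cub C ι × Cub C ι | x.2 ∈ faceSet i x.1} = ⋂ v : ι → Bool, ⋂ _ : v i = false,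
      {x : Cub C ι × Cub C ι | x.2.1 v = x.1.1 v} := by
    ext κ
    simp only [Set.mem_iInter]
    rfl
  rw [this]
  exact isClosed_iInter fun v => isClosed_iInter fun _ =>
    isClosed_eq ((ev C v).continuous.comp continuous_snd) ((ev C v).continuous.comp continuous_fst)

omit [Fintype ι] [DecidableEq ι] [CompactSpace X] [CNil C] [NilStep C k] in
theorem isClosed_faceSet (i : ι) (c : Cub C ι) : IsClosed (faceSet i c) :=
  (isClosed_faceGraph i).preimage (f := fun a => (c, a)) (by fun_prop)

omit [DecidableEq ι] [CompactSpace X] [T2Space X] [CNil C] in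
theorem fib_root (x : X) : ∀ a ∈ rootSet C ι x, ∀ a' ∈ rootSet C ι x,
    proj C k ι a = proj C k ι a' → ∃ κ ∈ Kroot C k ι, κ • a = a' := by
  intro a ha a' ha' h
  obtain ⟨κ, rfl⟩ := exists_of_proj h
  refine ⟨κ, Zg.eq_of_smul (x := a.1 (top ι)) ?_, rfl⟩
  rw [one_smul, ← Esub.smul_apply, show a.1 (top ι) = x from ha]
  exact ha'

omit [DecidableEq ι] [CompactSpace X] [T2Space X] [CNil C] in
theorem fib_face (i : ι) (c : Cub C ι) : ∀ a ∈ faceSet i c, ∀ a' ∈ faceSet i c,
    proj C k ι a = proj C k ι a' → ∃ κ ∈ Kface C k i, κ • a = a' := by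
  intro a ha a' ha' h
  obtain ⟨κ, rfl⟩ := exists_of_proj h
  refine ⟨κ, fun v hv => Zg.eq_of_smul (x := a.1 v) ?_, rfl⟩
  rw [one_smul, ← Esub.smul_apply, ha v hv]
  exact ha' v hv

omit [DecidableEq ι] [CompactSpace X] [T2Space X] [CNil C] in
theorem lift_root (x : X) :
    rootSet (factorCubes C k) ι (mkC C k x) ⊆ proj C k ι '' rootSet C ι x := by
  intro c' hc'
  have : Nonempty X := ⟨x⟩
  obtain ⟨c, rfl⟩ := proj_surjective ι c'
  obtain ⟨τ, hτ⟩ := Zg.exists_smul ((mk_eq_iff (NilStep.nil (C := C) k)).1 hc')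
  exact ⟨(⟨fun _ => τ, Esub.const ι τ⟩ : Esub C k ι) • c, hτ, proj_smul _ _⟩

omit [CompactSpace X] [T2Space X] in
theorem lift_face (i : ι) (c : Cub C ι) :
    faceSet i (proj C k ι c) ⊆ proj C k ι '' faceSet i c := by
  intro c' hc'
  obtain ⟨d, rfl⟩ := proj_surjective ι c'
  obtain ⟨κ, hκ⟩ := exists_of_proj (k := k) (c := upC C i false d) (d := upC C i false c)
    (Subtype.ext (funext fun v => hc' (update v i false) (by simp)))
  refine ⟨κ • d, fun v hv => ?_, proj_smul _ _⟩
  have h1 := congrFun (congrArg Subtype.val hκ) v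
  have h2 : update v i false = v := by rw [← hv, update_eq_self]
  rw [Esub.smul_apply] at h1 ⊢
  simpa only [upC, pull_apply, h2] using h1

/-- Precomposition with a simple map on the group of functions. -/
def pullHom (C : Cubes X) (k : ℕ) [NilStep C k] [Nonempty X] (φ : (ι → Bool) → (ι → Bool))
    (hφ : Simple φ) : Esub C k ι →* Esub C k ι where
  toFun κ := ⟨κ.1 ∘ φ, Esub.comp κ.2 hφ⟩
  map_one' := rfl
  map_mul' _ _ := rfl

theorem good_succ [Nonempty ι] {m : Fn X} (hm : IsMean Set.univ m)
    (hmi : ∀ (τ : Zg C k) (F : C(X, ℝ)), m (F.comp (shift τ)) = m F)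
    [CNil (factorCubes C k)]
    (ih : ∃ R L M, Good (ι := ι) (factorCubes C k) (push (mkC C k) m) R L M) :
    ∃ R L M, Good (ι := ι) C m R L M := by
  have hT2 := t2_factor (C := C) (k := k)
  have hX : IsNilspace C := NilStep.nil k
  obtain ⟨x₀, -⟩ := hm.nonempty
  have : Nonempty X := ⟨x₀⟩
  obtain ⟨RY, LY, MY, g⟩ := ih
  obtain ⟨R, R1, R2, R3, R4⟩ := mean_lift (Kroot C k ι) isClosed_Kroot (proj C k ι)
    (rootSet C ι) (isClosed_eq ((ev C (top ι)).continuous.comp continuous_snd) continuous_fst)
    (by
      intro x a ha κ hκ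
      change κ.1 _ • a.1 _ = x
      rw [show κ.1 _ = 1 from hκ, one_smul]
      exact ha) proj_smul fib_root (fun x => RY (mkC C k x))
    (fun x => (g.R_mean _).subset (lift_root x))
    (fun F => (g.R_cont F).comp (mkC C k).continuous)
  have hL := fun i : ι => mean_lift (Kface C k i) (isClosed_Kface i) (proj C k ι)
    (faceSet i) (isClosed_faceGraph i)
    (by
      intro c a ha κ hκ v hv
      change κ.1 _ • a.1 _ = _
      rw [hκ v hv, one_smul]
      exact ha v hv) proj_smul (fib_face i) (fun c => LY i (proj C k ι c))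
    (fun c => (g.L_mean i _).subset (lift_face i c))
    (fun F => (g.L_cont i F).comp (proj C k ι).continuous)
  choose L L1 L2 L3 L4 using hL
  have shift_comm : ∀ (κ κ' : Esub C k ι) (F : C(Cub C ι, ℝ)),
      (F.comp (shift κ)).comp (shift κ') = (F.comp (shift κ')).comp (shift κ) := by
    intro κ κ' F
    ext a
    simp only [ContinuousMap.comp_apply, shift_apply, smul_smul, mul_comm]
  have proj_shift : ∀ (κ : Esub C k ι) (F : C(Cub (factorCubes C k) ι, ℝ)),
      (F.comp (proj C k ι)).comp (shift κ) = F.comp (proj C k ι) := by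
    intro κ F
    ext a
    simp only [ContinuousMap.comp_apply, shift_apply, proj_smul]
  have R_shift : ∀ (κ : Esub C k ι) x, R (κ.1 (top ι) • x) = push (shift κ) (R x) := by
    intro κ x
    refine mean_unique (Kroot C k ι) isClosed_Kroot (proj C k ι) (isClosed_rootSet _)
      (fib_root _) (R1 _) ((R1 x).push _ (fun a ha => ?_)) (R2 _) (fun κ' hκ' F => ?_)
      (fun F => ?_)
    · change κ.1 _ • a.1 _ = _
      rw [show a.1 _ = x from ha]
    · rw [push_apply, push_apply, shift_comm, R2 _ _ hκ']
    · rw [push_apply, proj_shift, R3, R3]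
      congr 2
      exact Zg.mk_smul _ _
  let M : Fn (Cub C ι) := bind m R R4
  have M1 : IsMean Set.univ M := hm.bind R4 R1
  have M2 : ∀ (κ : Esub C k ι) F, M (F.comp (shift κ)) = M F := by
    intro κ F
    rw [bind_eq m R R4 _ ((⟨fun x => R x F, R4 F⟩ : C(X, ℝ)).comp (shift (κ.1 (top ι))))
      (fun x => by simp [R_shift]), hmi]
    rfl
  have M3 : ∀ F : C(Cub (factorCubes C k) ι, ℝ), M (F.comp (proj C k ι)) = MY F := by
    intro F
    rw [g.M_def F ⟨fun y => RY y F, g.R_cont F⟩ (fun _ => rfl), push_apply]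
    exact bind_eq m R R4 _ _ (fun x => (R3 x F).symm)
  have M_uniq : ∀ M' : Fn (Cub C ι), IsMean Set.univ M' →
      (∀ (κ : Esub C k ι) F, M' (F.comp (shift κ)) = M' F) →
      (∀ F : C(Cub (factorCubes C k) ι, ℝ), M' (F.comp (proj C k ι)) = MY F) → M' = M := by
    intro M' h1 h2 h3
    exact mean_unique' (K := Esub C k ι) (proj C k ι) isClosed_univ
      (fun a _ a' _ h => exists_of_proj h) h1 M1 h2 M2 (fun F => by rw [h3, M3])
  have L_shift : ∀ i (κ : Esub C k ι) c, L i (κ • c) = push (shift κ) (L i c) := by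
    intro i κ c
    refine mean_unique (Kface C k i) (isClosed_Kface i) (proj C k ι) (isClosed_faceSet _ _)
      (fib_face _ _) (L1 _ _) ((L1 i c).push _ (fun a ha v hv => ?_)) (L2 _ _)
      (fun κ' hκ' F => ?_) (fun F => ?_)
    · change κ.1 _ • a.1 _ = κ.1 _ • c.1 _
      rw [ha v hv]
    · rw [push_apply, push_apply, shift_comm, L2 _ _ _ hκ']
    · rw [push_apply, proj_shift, L3, L3, proj_smul]
  refine ⟨R, L, M, R1, R4, ?_, ?_, fun F G h => bind_eq m R R4 F G h, M1, ?_, L1, L4, ?_, ?_, ?_⟩
  · -- marginals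
    intro x v hv
    obtain ⟨i, hi⟩ : ∃ i, v i = false := by
      by_contra h
      apply hv
      funext i
      by_contra h2
      exact h ⟨i, by simpa using h2⟩
    have : push (ev C v) (R x) = m := by
      refine mean_unique' (K := Zg C k) (mkC C k) isClosed_univ
        (fun a _ a' _ h => Zg.exists_smul ((mk_eq_iff hX).1 h))
        ((R1 x).push _ (fun _ _ => trivial)) hm (fun τ F => ?_) hmi (fun F => ?_)
      · rw [push_apply, push_apply, ← R2 x ⟨_, Esub.coord i τ 1⟩ (by simp [Kroot])
          (F.comp (ev C v))]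
        congr 1
        ext a
        simp [Esub.smul_apply, hi]
      · rw [push_apply, ← push_apply (mkC C k), ← g.R_marg (mkC C k x) v hv, ← R3]
        rfl
    intro g'
    rw [← this, push_apply]
  · -- translations
    intro α hα x
    let β : C(Quot (Sim C k), Quot (Sim C k)) := ⟨Quot.map α (fun _ _ h => hα.sim hX h),
      continuous_quot_lift _ (continuous_quot_mk.comp α.continuous)⟩
    have hβ : IsTranslation (factorCubes C k) 1 β := hα.factor hX
    have : R (α x) = push (tr α hα) (R x) := by
      refine mean_unique (Kroot C k ι) isClosed_Kroot (proj C k ι) (isClosed_rootSet _)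
        (fib_root _) (R1 _) ((R1 x).push _ (fun a ha => ?_)) (R2 _) (fun κ' hκ' F => ?_)
        (fun F => ?_)
      · change α (a.1 _) = _
        rw [show a.1 _ = x from ha]
      · rw [push_apply, push_apply, ← R2 x κ' hκ' (F.comp (tr α hα))]
        congr 1
        ext a
        simp only [ContinuousMap.comp_apply, shift_apply]
        congr 1
        exact Subtype.ext (funext fun v => (hα.smul _ _).symm)
      · rw [push_apply, R3, show mkC C k (α x) = β (mkC C k x) from rfl, g.R_tr β hβ, ← R3]
        rfl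
    intro F
    rw [this, push_apply]
  · -- reflection
    intro i
    have : push (flipC C i) M = M := by
      refine M_uniq _ (M1.push _ (fun _ _ => trivial)) (fun κ F => ?_) (fun F => ?_)
      · rw [push_apply, push_apply, ← M2 (pullHom C k _ (simple_flip i) κ) (F.comp (flipC C i))]
        congr 1
        ext a
        simp only [ContinuousMap.comp_apply, shift_apply]
        congr 1
        refine Subtype.ext (funext fun v => ?_)
        simp [Esub.smul_apply, flipC, pull_apply, pullHom]
      · rw [push_apply, ← g.M_flip i F, ← M3]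
        rfl
    intro F
    rw [← push_apply, this]
  · -- dependence on the lower face only
    intro i c c' hc'
    have h1 : faceSet i c' = faceSet i c := by
      ext a
      exact forall_congr' fun v => forall_congr' fun hv => by rw [hc' v hv]
    refine mean_unique (Kface C k i) (isClosed_Kface i) (proj C k ι) (isClosed_faceSet i c)
      (fib_face _ _) (h1 ▸ L1 i c') (L1 i c) (L2 _ _) (L2 _ _) (fun F => ?_)
    rw [L3, L3, g.L_congr i (proj C k ι c) (proj C k ι c')
      (fun v hv => by rw [proj_apply, proj_apply, hc' v hv])]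
  · -- disintegration
    intro i F G hG
    have : bind M (L i) (L4 i) = M := by
      refine M_uniq _ (M1.bind _ (L1 i)) (fun κ F => ?_) (fun F => ?_)
      · rw [bind_eq M _ _ _ ((⟨fun c => L i c F, L4 i F⟩ : C(Cub C ι, ℝ)).comp (shift κ))
          (fun c => by simp [L_shift]), M2]
        rfl
      · rw [g.L_M i F ⟨fun c => LY i c F, g.L_cont i F⟩ (fun _ => rfl), ← M3]
        exact bind_eq M _ _ _ _ (fun c => (L3 i c F).symm)
    rw [← bind_eq M (L i) (L4 i) F G hG, this]
  · -- idempotence
    intro i c
    have : push (upC C i true) (L i c) = push (upC C i true) (L i (flipC C i c)) := by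
      let up := pullHom C k _ (simple_update i true)
      have hupc : Continuous up := by
        refine Continuous.subtype_mk (continuous_pi fun v => ?_) _
        exact (continuous_apply _).comp continuous_subtype_val
      have hinv : ∀ c : Cub C ι, ∀ κ ∈ (Kface C k i).map up, ∀ F : C(Cub C ι, ℝ),
          push (upC C i true) (L i c) (F.comp (shift κ)) = push (upC C i true) (L i c) F := by
        rintro c _ ⟨κ, hκ, rfl⟩ F
        rw [push_apply, push_apply, ← L2 i c κ hκ (F.comp (upC C i true))]
        rfl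
      refine mean_unique ((Kface C k i).map up)
        (((isClosed_Kface i).isCompact.image hupc).isClosed) (proj C k ι)
        (T := upC C i true '' faceSet i c)
        (((isClosed_faceSet i c).isCompact.image (upC C i true).continuous).isClosed) ?_
        ((L1 i c).push _ (fun a ha => ⟨a, ha, rfl⟩)) ((L1 i _).push _ (fun a ha => ?_))
        (hinv _) (hinv _) (fun F => ?_)
      · rintro _ ⟨a, ha, rfl⟩ _ ⟨a', ha', rfl⟩ h
        obtain ⟨κ, hκ, rfl⟩ := fib_face (k := k) i c a ha a' ha' (by
          refine Subtype.ext (funext fun v => ?_)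
          cases hv : v i
          · rw [proj_apply, proj_apply, ha v hv, ha' v hv]
          · have h2 : update v i true = v := by rw [← hv, update_eq_self]
            have := congrFun (congrArg Subtype.val h) v
            simpa only [proj_apply, upC, pull_apply, h2] using this)
        exact ⟨up κ, ⟨κ, hκ, rfl⟩, rfl⟩
      · refine ⟨⟨_, concat hX i c.2 a.2 (fun v => ?_)⟩, fun v hv => by simp [hv], ?_⟩
        · rw [ha _ (by simp)]
          simp [flipC, pull_apply]
        · refine Subtype.ext (funext fun v => ?_)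
          simp [upC, pull_apply]
      · rw [push_apply, push_apply]
        have h1 : (F.comp (proj C k ι)).comp (upC C i true) =
            (F.comp (upC (factorCubes C k) i true)).comp (proj C k ι) := rfl
        rw [h1, L3, L3, g.L_flip]
        rfl
    intro F
    rw [← push_apply, this, push_apply]

theorem exists_good (ι : Type) [Fintype ι] [DecidableEq ι] [Nonempty ι] (k : ℕ) :
    ∀ (X : Type) [TopologicalSpace X] [CompactSpace X] [T2Space X] (C : Cubes X) [CNil C]
      (m : Fn X), IsStep C k → HaarFn k X C m → ∃ R L M, Good (ι := ι) C m R L M := by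
  induction k with
  | zero => intro X _ _ _ C _ m hs hm; exact good_zero C hs hm
  | succ k ih =>
    intro X _ _ _ C hC m hs hm
    have : NilStep C k := ⟨hC.nil, hs⟩
    have := cnil_factor (C := C) (k := k)
    have := t2_factor (C := C) (k := k)
    exact good_succ hm.1 (fun τ F => hm.2.1 (Homeomorph.smul τ) τ.isTranslation F)
      (ih _ _ _ (factor_step hC.nil k) hm.2.2)

end Pool.Agent.H38Z.Nil
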