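import Pool.Agent.H38Z.Nil.GCS

set_option autoImplicit false

namespace Pool.Agent.H38Z.Nil

open MeasureTheory Topology Filter

theorem cont_integrable {X : Type} [TopologicalSpace X] [CompactSpace X] [MeasurableSpace X]
    [BorelSpace X] (μ : Measure X) [IsFiniteMeasure μ] (F : C(X, ℝ)) : Integrable F μ :=
  (BoundedContinuousFunction.mkOfCompact F).integrable μ

/-- Integration as a functional. -/
noncomputable def intFn {X : Type} [TopologicalSpace X] [CompactSpace X] [MeasurableSpace X]
    [BorelSpace X] (μ : Measure X) [IsFiniteMeasure μ] : Fn X where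
  toFun F := ∫ x, F x ∂μ
  map_add' F G := integral_add (cont_integrable μ F) (cont_integrable μ G)
  map_smul' c F := by
    simp only [ContinuousMap.smul_apply, RingHom.id_apply]
    exact integral_smul c _

theorem IsHaar.prob {k : ℕ} {X : Type} [TopologicalSpace X] {C : Cubes X}
    {μ : @Measure X (borel X)} (h : IsHaar k X C μ) : @IsProbabilityMeasure X (borel X) μ := by
  cases k with
  | zero => exact h
  | succ k => exact h.1

theorem HaarFn.mean {k : ℕ} {X : Type} [TopologicalSpace X] {C : Cubes X}
    {m : Fn X} (h : HaarFn k X C m) : IsMean Set.univ m := by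
  cases k with
  | zero => exact h
  | succ k => exact h.1

theorem haarFn_of (k : ℕ) : ∀ (X : Type) [TopologicalSpace X] (C : Cubes X)
    (μ : @Measure X (borel X)) (m : Fn X), IsHaar k X C μ →
    (∀ F : C(X, ℝ), m F = @integral X ℝ _ _ (borel X) μ F) → HaarFn k X C m := by
  have key : ∀ (X : Type) [TopologicalSpace X] (μ : @Measure X (borel X)) (m : Fn X),
      @IsProbabilityMeasure X (borel X) μ →
      (∀ F : C(X, ℝ), m F = @integral X ℝ _ _ (borel X) μ F) → IsMean Set.univ m := by
    intro X _ μ m hμ hm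
    let : MeasurableSpace X := borel X
    refine ⟨by rw [hm]; exact (integral_const (1 : ℝ)).trans (by simp), fun F hF => ?_⟩
    rw [hm]
    exact integral_nonneg fun x => hF x trivial
  induction k with
  | zero => intro X _ C μ m h hm; exact key X μ m h hm
  | succ k ih =>
    intro X _ C μ m h hm
    let : MeasurableSpace X := borel X
    have : BorelSpace X := ⟨rfl⟩
    let : MeasurableSpace (Quot (Sim C k)) := borel _
    have : BorelSpace (Quot (Sim C k)) := ⟨rfl⟩
    refine ⟨key X μ m h.1 hm, fun τ hτ F => ?_, ih _ _ _ _ h.2.2 fun F => ?_⟩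
    · rw [hm, hm]
      conv_rhs => rw [← h.2.1 τ hτ]
      rw [integral_map τ.continuous.aemeasurable F.continuous.aestronglyMeasurable]
      rfl
    · rw [push_apply, hm,
        integral_map continuous_quot_mk.aemeasurable F.continuous.aestronglyMeasurable]
      rfl

/-- Truncation to `[-1, 1]`. -/
def clamp (t : ℝ) : ℝ := max (-1) (min 1 t)

theorem continuous_clamp : Continuous clamp := by unfold clamp; fun_prop

theorem abs_clamp_le (t : ℝ) : |clamp t| ≤ 1 :=
  abs_le.2 ⟨le_max_left _ _, max_le (by norm_num) (min_le_left _ _)⟩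

theorem abs_sub_clamp {y : ℝ} (hy : |y| ≤ 1) (t : ℝ) : |y - clamp t| ≤ |y - t| := by
  rw [abs_le] at hy
  unfold clamp
  rcases le_total 1 t with h | h
  · rw [min_eq_left h, max_eq_right (by norm_num), abs_of_nonpos (by linarith),
      abs_of_nonpos (by linarith)]
    linarith
  · rw [min_eq_right h]
    rcases le_total (-1) t with h' | h'
    · rw [max_eq_right h']
    · rw [max_eq_left h', abs_of_nonneg (by linarith), abs_of_nonneg (by linarith)]
      linarith

theorem exists_approx {X : Type} [TopologicalSpace X] [CompactSpace X] [T2Space X]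
    [SecondCountableTopology X] [MeasurableSpace X] [BorelSpace X] (μ : Measure X)
    [IsFiniteMeasure μ] {f : X → ℝ} (hf : Integrable f μ) (h1 : ∀ x, |f x| ≤ 1) {ε : ℝ}
    (hε : 0 < ε) : ∃ h : C(X, ℝ), (∀ x, |h x| ≤ 1) ∧ ∫ x, |f x - h x| ∂μ ≤ ε := by
  obtain ⟨g, hg, hg'⟩ := hf.exists_boundedContinuous_integral_sub_le hε
  let h : C(X, ℝ) := ⟨fun x => clamp (g x), continuous_clamp.comp g.continuous⟩
  refine ⟨h, fun x => abs_clamp_le _, le_trans ?_ hg⟩
  refine integral_mono (hf.sub (cont_integrable μ h)).abs (hf.sub hg').norm fun x => ?_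
  exact abs_sub_clamp (h1 x) _

theorem ergodic_of_transitive (k : ℕ) (X : Type) [TopologicalSpace X] [CompactSpace X]
    [T2Space X] [SecondCountableTopology X] (C : Cubes X) (hnil : IsNilspace C)
    (hstep : IsStep C k) (hclosed : ∀ n, IsClosed (C n)) (μ : @Measure X (borel X))
    (hμ : IsHaar k X C μ) {G : Type} (α : G → (X ≃ₜ X))
    (hα : ∀ g, IsTranslation C 1 (α g))
    (htr : ∀ U V : Set X, IsOpen U → IsOpen V → U.Nonempty → V.Nonempty →
      ∃ g, (α g '' U ∩ V).Nonempty)
    (s : Set X) (hs : @MeasurableSet X (borel X) s) (hinv : ∀ g, α g ⁻¹' s = s) :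
    μ s = 0 ∨ μ s = 1 := by
  let : MeasurableSpace X := borel X
  have : BorelSpace X := ⟨rfl⟩
  have := hμ.prob
  have : CNil C := ⟨hnil, hclosed⟩
  let m : Fn X := intFn μ
  have hm : ∀ F : C(X, ℝ), m F = ∫ x, F x ∂μ := fun _ => rfl
  have hH := haarFn_of k X C μ m hμ hm
  have hmean := hH.mean
  obtain ⟨x₀, -⟩ := hmean.nonempty
  obtain ⟨R, L, M, g⟩ := exists_good (Fin (k + 1)) k X C m hstep hH
  have hpres : ∀ t, μ.map (α t) = μ := by
    intro t
    refine ext_of_forall_integral_eq_of_IsFiniteMeasure fun F => ?_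
    rw [integral_map (α t).continuous.aemeasurable F.continuous.aestronglyMeasurable]
    exact g.m_inv x₀ (α t) (hα t) F.toContinuousMap
  set a := μ.real s with ha
  have ha0 : 0 ≤ a := measureReal_nonneg
  have ha1 : a ≤ 1 := measureReal_le_one
  let f : X → ℝ := fun x => s.indicator 1 x - a
  have hind : Integrable (s.indicator (1 : X → ℝ)) μ := (integrable_const 1).indicator hs
  have hf : Integrable f μ := hind.sub (integrable_const a)
  have hf1 : ∀ x, |f x| ≤ 1 := by
    intro x
    by_cases hx : x ∈ s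
    · simp only [f, Set.indicator_of_mem hx, Pi.one_apply]
      rw [abs_le]; constructor <;> linarith
    · simp only [f, Set.indicator_of_notMem hx]
      rw [abs_le]; constructor <;> linarith
  have hf0 : ∫ x, f x ∂μ = 0 := by
    rw [integral_sub hind (integrable_const a), integral_indicator_one hs]
    simp [ha]
  have hfinv : ∀ t x, f (α t x) = f x := by
    intro t x
    have : α t x ∈ s ↔ x ∈ s := by
      rw [← Set.mem_preimage, hinv]
    by_cases hx : x ∈ s
    · simp only [f, Set.indicator_of_mem hx, Set.indicator_of_mem (this.2 hx), Pi.one_apply]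
    · simp only [f, Set.indicator_of_notMem hx, Set.indicator_of_notMem (mt this.1 hx)]
  have hfm : Measurable f := (measurable_const.indicator hs).sub measurable_const
  choose h h1 h2 using fun n : ℕ =>
    exists_approx μ hf hf1 (ε := 1 / ((n : ℝ) + 1)) Nat.one_div_pos_of_nat
  have hint : ∀ n, Integrable (fun x => |f x - h n x|) μ :=
    fun n => (hf.sub (cont_integrable μ (h n))).abs
  have hclose : ∀ n (φ : X → ℝ) (c : ℝ), Measurable φ → (∀ x, |φ x| ≤ c) →
      |∫ x, f x * φ x ∂μ - ∫ x, h n x * φ x ∂μ| ≤ c * (1 / ((n : ℝ) + 1)) := by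
    intro n φ c hφ hc
    have hc0 : 0 ≤ c := (abs_nonneg _).trans (hc x₀)
    have hb : ∀ᵐ x ∂μ, ‖φ x‖ ≤ c := ae_of_all _ hc
    rw [← integral_sub (hf.mul_bdd hφ.aestronglyMeasurable hb)
      ((cont_integrable μ (h n)).mul_bdd hφ.aestronglyMeasurable hb)]
    refine abs_integral_le_integral_abs.trans (le_trans ?_ (mul_le_mul_of_nonneg_left (h2 n) hc0))
    rw [← integral_const_mul]
    refine integral_mono ((hf.mul_bdd hφ.aestronglyMeasurable hb).sub
      ((cont_integrable μ (h n)).mul_bdd hφ.aestronglyMeasurable hb)).abs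
      ((hint n).const_mul c) fun x => ?_
    change |f x * φ x - h n x * φ x| ≤ c * |f x - h n x|
    rw [← sub_mul, abs_mul, mul_comm]
    exact mul_le_mul_of_nonneg_right (hc x) (abs_nonneg _)
  have hlim : Tendsto (fun n : ℕ => 1 / ((n : ℝ) + 1)) atTop (𝓝 0) :=
    tendsto_one_div_add_atTop_nhds_zero_nat
  have hmh : ∀ n, |m (h n)| ≤ 1 / ((n : ℝ) + 1) := by
    intro n
    have := hclose n (fun _ => 1) 1 measurable_const (fun _ => by simp)
    simpa [hf0, hm] using this
  have hδ : ∀ n t, m |(h n).comp (α t) - h n| ≤ 2 * (1 / ((n : ℝ) + 1)) := by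
    intro n t
    have h3 : ∫ x, |f x - h n (α t x)| ∂μ = ∫ x, |f x - h n x| ∂μ := by
      conv_rhs => rw [← hpres t]
      rw [integral_map (f := fun x => |f x - h n x|) (α t).continuous.aemeasurable
        (hfm.sub (h n).continuous.measurable).abs.aestronglyMeasurable]
      simp only [hfinv]
    have h4 : Integrable (fun x => |f x - h n (α t x)|) μ :=
      (hf.sub (cont_integrable μ ((h n).comp (α t)))).abs
    rw [hm]
    calc _ ≤ ∫ x, (|f x - h n (α t x)| + |f x - h n x|) ∂μ := by
          refine integral_mono (cont_integrable μ _) (h4.add (hint n)) fun x => ?_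
          change |h n (α t x) - h n x| ≤ |f x - h n (α t x)| + |f x - h n x|
          rw [abs_sub_comm (f x) (h n (α t x))]
          exact abs_sub_le _ _ _
      _ ≤ _ := by
          rw [integral_add h4 (hint n), h3]
          linarith [h2 n]
  have hU : Tendsto (fun n => |M (prodOn C Finset.univ (fun _ => h n))|) atTop (𝓝 0) := by
    refine squeeze_zero (g := fun n : ℕ => 1 / ((n : ℝ) + 1) +
      Fintype.card (Fin (k + 1) → Bool) * (2 * (1 / ((n : ℝ) + 1)))) (fun _ => abs_nonneg _)
      (fun n => ?_) ?_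
    · refine (g.bound hmean (fun t => (α t : C(X, X))) hα htr (h1 n) (hδ n)).trans ?_
      rw [abs_of_nonneg (a := 2 * _) (by positivity)]
      exact add_le_add (hmh n) le_rfl
    · simpa using hlim.add ((hlim.const_mul 2).const_mul (Fintype.card (Fin (k + 1) → Bool) : ℝ))
  have hzero : ∀ φ : C(X, ℝ), ∫ x, f x * φ x ∂μ = 0 := by
    intro φ
    have h3 := g.weak hstep (by simp) h h1 hU φ
    have h4 : Tendsto (fun n => ∫ x, f x * φ x ∂μ - m (h n * φ)) atTop (𝓝 0) := by
      refine squeeze_zero_norm (a := fun n : ℕ => ‖φ‖ * (1 / ((n : ℝ) + 1)))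
        (fun n => hclose n φ ‖φ‖ φ.continuous.measurable φ.norm_coe_le_norm) ?_
      simpa using hlim.const_mul ‖φ‖
    have h5 := h4.add h3
    simp only [sub_add_cancel, add_zero] at h5
    exact tendsto_nhds_unique tendsto_const_nhds h5
  have hsq : ∫ x, f x * f x ∂μ = 0 := by
    refine abs_nonpos_iff.1 (ge_of_tendsto' hlim fun n => ?_)
    have h3 := hclose n f 1 hfm hf1
    have h4 := hzero (h n)
    simp only [mul_comm (f _) (h n _)] at h4
    rw [h4, sub_zero, one_mul] at h3
    exact h3
  have hsq2 : ∫ x, f x * f x ∂μ = a - a * a := by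
    have : ∀ x, f x * f x = (1 - 2 * a) * s.indicator 1 x + a * a := by
      intro x
      by_cases hx : x ∈ s
      · simp only [f, Set.indicator_of_mem hx, Pi.one_apply]; ring
      · simp only [f, Set.indicator_of_notMem hx]; ring
    simp only [this]
    rw [integral_add (hind.const_mul _) (integrable_const _), integral_const_mul,
      integral_indicator_one hs]
    simp only [integral_const, probReal_univ, smul_eq_mul, ← ha]
    ring
  have h3 : a * (1 - a) = 0 := by rw [← hsq, hsq2]; ring
  have h4 : μ s = ENNReal.ofReal a := (ofReal_measureReal (measure_ne_top μ s)).symm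
  rcases mul_eq_zero.1 h3 with h5 | h5
  · left; rw [h4, h5]; simp
  · right; rw [h4, show a = 1 by linarith]; simp

end Pool.Agent.H38Z.Nil
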