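import Mathlib

set_option autoImplicit false

namespace Pool.Agent.H38Z.Nil

open MeasureTheory Topology Filter

section Basic

variable {A : Type} [TopologicalSpace A]

/-- Linear functionals on continuous functions. -/
abbrev Fn (A : Type) [TopologicalSpace A] : Type := C(A, ℝ) →ₗ[ℝ] ℝ

/-- A positive normalised functional supported on `T`. -/
def IsMean (T : Set A) (M : Fn A) : Prop :=
  M 1 = 1 ∧ ∀ F : C(A, ℝ), (∀ a ∈ T, 0 ≤ F a) → 0 ≤ M F

theorem IsMean.mono {T : Set A} {M : Fn A} (h : IsMean T M) {F G : C(A, ℝ)}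
    (hFG : ∀ a ∈ T, F a ≤ G a) : M F ≤ M G := by
  have := h.2 (G - F) (fun a ha => by simpa using hFG a ha)
  rw [map_sub] at this
  linarith

theorem IsMean.congr {T : Set A} {M : Fn A} (h : IsMean T M) {F G : C(A, ℝ)}
    (hFG : ∀ a ∈ T, F a = G a) : M F = M G :=
  le_antisymm (h.mono fun a ha => (hFG a ha).le) (h.mono fun a ha => (hFG a ha).ge)

theorem IsMean.const {T : Set A} {M : Fn A} (h : IsMean T M) (c : ℝ) :
    M (ContinuousMap.const A c) = c := by
  have : ContinuousMap.const A c = c • (1 : C(A, ℝ)) := by ext; simp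
  rw [this, map_smul, h.1]; simp

theorem IsMean.abs_le {T : Set A} {M : Fn A} (h : IsMean T M) {F : C(A, ℝ)} {c : ℝ}
    (hF : ∀ a ∈ T, |F a| ≤ c) : |M F| ≤ c := by
  rw [_root_.abs_le]
  constructor
  · rw [← h.const (-c)]
    exact h.mono fun a ha => (_root_.abs_le.1 (hF a ha)).1
  · rw [← h.const c]
    exact h.mono fun a ha => (_root_.abs_le.1 (hF a ha)).2

theorem IsMean.abs_le_of {T : Set A} {M : Fn A} (h : IsMean T M) {F G : C(A, ℝ)}
    (hF : ∀ a ∈ T, |F a| ≤ G a) : |M F| ≤ M G := by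
  rw [_root_.abs_le]
  constructor
  · rw [← map_neg]
    exact h.mono fun a ha => (_root_.abs_le.1 (hF a ha)).1
  · exact h.mono fun a ha => (_root_.abs_le.1 (hF a ha)).2

theorem IsMean.subset {T T' : Set A} {M : Fn A} (h : IsMean T M) (hT : T ⊆ T') : IsMean T' M :=
  ⟨h.1, fun F hF => h.2 F fun a ha => hF a (hT ha)⟩

theorem IsMean.abs_le_norm [CompactSpace A] {T : Set A} {M : Fn A} (h : IsMean T M)
    (F : C(A, ℝ)) : |M F| ≤ ‖F‖ :=
  h.abs_le fun a _ => F.norm_coe_le_norm a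

theorem IsMean.mul_const {T : Set A} {M : Fn A} (h : IsMean T M) {F G : C(A, ℝ)} {c : ℝ}
    (hF : ∀ a ∈ T, F a = c) : M (F * G) = c * M G := by
  rw [← smul_eq_mul c, ← map_smul]
  exact h.congr fun a ha => by simp [hF a ha]

theorem IsMean.cauchy {T : Set A} {M : Fn A} (h : IsMean T M) (F G : C(A, ℝ)) :
    M (F * G) ^ 2 ≤ M (F * F) * M (G * G) := by
  have h1 : ∀ t : ℝ, 0 ≤ M (G * G) * (t * t) + 2 * M (F * G) * t + M (F * F) := by
    intro t
    have h2 := h.2 ((F + t • G) * (F + t • G)) (fun a _ => by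
      simpa using mul_self_nonneg (F a + t * G a))
    have h3 : (F + t • G) * (F + t • G) = (t * t) • (G * G) + (2 * t) • (F * G) + F * F := by
      ext a; simp; ring
    rw [h3, map_add, map_add, map_smul, map_smul, smul_eq_mul, smul_eq_mul] at h2
    linarith
  have := discrim_le_zero h1
  rw [discrim] at this
  nlinarith

/-- Push-forward of a functional. -/
noncomputable def push {B : Type} [TopologicalSpace B] (p : C(A, B)) (M : Fn A) : Fn B where
  toFun F := M (F.comp p)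
  map_add' F G := by rw [← map_add]; rfl
  map_smul' c F := by rw [RingHom.id_apply, ← map_smul]; rfl

@[simp] theorem push_apply {B : Type} [TopologicalSpace B] (p : C(A, B)) (M : Fn A)
    (F : C(B, ℝ)) : push p M F = M (F.comp p) := rfl

theorem IsMean.push {B : Type} [TopologicalSpace B] (p : C(A, B)) {T : Set A} {M : Fn A}
    (h : IsMean T M) {T' : Set B} (hT : ∀ a ∈ T, p a ∈ T') : IsMean T' (push p M) :=
  ⟨h.1, fun _ hF => h.2 _ fun a ha => hF _ (hT a ha)⟩

theorem continuous_mean_family [CompactSpace A] {D : Type} [TopologicalSpace D] {T : D → Set A}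
    {N : D → Fn A} (hN : ∀ d, IsMean (T d) (N d)) (hc : ∀ F, Continuous fun d => N d F)
    {G : D → C(A, ℝ)} (hG : Continuous G) : Continuous fun d => N d (G d) := by
  rw [continuous_iff_continuousAt]
  intro d₀
  have h1 : Tendsto (fun d => N d (G d - G d₀)) (𝓝 d₀) (𝓝 0) := by
    refine squeeze_zero_norm (fun d => (hN d).abs_le_norm _) ?_
    have : Tendsto (fun d => ‖G d - G d₀‖) (𝓝 d₀) (𝓝 ‖G d₀ - G d₀‖) :=
      ((hG.sub continuous_const).norm.tendsto d₀)
    simpa using this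
  have h2 := h1.add ((hc (G d₀)).tendsto d₀)
  simp only [map_sub, sub_add_cancel, zero_add] at h2
  exact h2

theorem descend {P P' : Type} [TopologicalSpace P] [CompactSpace P] [TopologicalSpace P']
    [CompactSpace P'] [T2Space P'] {Γ : Set P} (hΓ : IsClosed Γ) {q : P → P'}
    (hq : Continuous q) (Φ : C(P, ℝ)) (h : ∀ x ∈ Γ, ∀ y ∈ Γ, q x = q y → Φ x = Φ y) :
    ∃ Ψ : C(P', ℝ), ∀ x ∈ Γ, Ψ (q x) = Φ x := by
  have : CompactSpace Γ := isCompact_iff_compactSpace.1 hΓ.isCompact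
  let q' : Γ → (q '' Γ) := fun x => ⟨q x, x, x.2, rfl⟩
  have hq' : Continuous q' := (hq.comp continuous_subtype_val).subtype_mk _
  have hsurj : Function.Surjective q' := by
    rintro ⟨_, x, hx, rfl⟩
    exact ⟨⟨x, hx⟩, rfl⟩
  have hquot : IsQuotientMap q' := hq'.isClosedMap.isQuotientMap hq' hsurj
  let ψ : (q '' Γ) → ℝ := fun y => Φ y.2.choose
  have hψ : ∀ x : Γ, ψ (q' x) = Φ x := fun x =>
    h _ (q' x).2.choose_spec.1 _ x.2 (q' x).2.choose_spec.2
  have hψc : Continuous ψ := by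
    rw [hquot.continuous_iff]
    have : ψ ∘ q' = fun x : Γ => Φ x := funext hψ
    rw [this]
    exact Φ.continuous.comp continuous_subtype_val
  obtain ⟨Ψ, hΨ⟩ := ContinuousMap.exists_restrict_eq (hΓ.isCompact.image hq).isClosed
    (⟨ψ, hψc⟩ : C(q '' Γ, ℝ))
  refine ⟨Ψ, fun x hx => ?_⟩
  rw [← hψ ⟨x, hx⟩]
  exact DFunLike.congr_fun hΨ (q' ⟨x, hx⟩)

end Basic

section Average

variable {A : Type} [TopologicalSpace A] [CompactSpace A]
  {K : Type} [CommGroup K] [TopologicalSpace K] [IsTopologicalGroup K] [CompactSpace K]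
  [MulAction K A] [ContinuousSMul K A]

/-- The action of a group element as a continuous map. -/
def shift (κ : K) : C(A, A) := ⟨fun a => κ • a, continuous_const_smul κ⟩

omit [CompactSpace A] [IsTopologicalGroup K] [CompactSpace K] in
@[simp] theorem shift_apply (κ : K) (a : A) : shift κ a = κ • a := rfl

theorem exists_avg : ∃ av : C(A, ℝ) → C(A, ℝ),
    (∀ F G a, av (F + G) a = av F a + av G a) ∧ (∀ (c : ℝ) F a, av (c • F) a = c * av F a) ∧
    (∀ F a, (∀ κ : K, 0 ≤ F (κ • a)) → 0 ≤ av F a) ∧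
    (∀ F a, (∀ κ : K, F (κ • a) = F a) → av F a = F a) ∧
    (∀ F (κ : K) a, av F (κ • a) = av F a) ∧
    (∀ F (κ : K) a, av (F.comp (shift κ)) a = av F a) ∧
    (∀ (T : Set A) (M : Fn A), IsMean T M → (∀ (κ : K) F, M (F.comp (shift κ)) = M F) →
      ∀ F, M (av F) = M F) := by
  borelize K
  let m : Measure K := Measure.haarMeasure ⊤
  have : IsProbabilityMeasure m := ⟨by
    have := Measure.haarMeasure_self (G := K) (K₀ := ⊤)
    simpa using this⟩
  let cur : C(A, ℝ) → C(K, C(A, ℝ)) := fun F =>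
    ContinuousMap.curry ⟨fun p : K × A => F (p.1 • p.2), by fun_prop⟩
  have hint : ∀ F, Integrable (cur F) m := fun F =>
    (cur F).continuous.integrable_of_hasCompactSupport (HasCompactSupport.of_compactSpace _)
  have hap : ∀ F a, (∫ κ, cur F κ ∂m) a = ∫ κ, F (κ • a) ∂m := fun F a =>
    ContinuousMap.integral_apply (hint F) a
  have hint2 : ∀ (F : C(A, ℝ)) (a : A), Integrable (fun κ : K => F (κ • a)) m := fun F a =>
    Continuous.integrable_of_hasCompactSupport (by fun_prop) (HasCompactSupport.of_compactSpace _)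
  have hinv : ∀ (F : C(A, ℝ)) (κ₀ : K) (a : A),
      ∫ κ, F (κ₀ • κ • a) ∂m = ∫ κ, F (κ • a) ∂m := by
    intro F κ₀ a
    have := integral_mul_left_eq_self (μ := m) (fun κ : K => F (κ • a)) κ₀
    simpa [mul_smul] using this
  refine ⟨fun F => ∫ κ, cur F κ ∂m, ?_, ?_, ?_, ?_, ?_, ?_, ?_⟩
  · intro F G a
    simp only [hap, ContinuousMap.add_apply]
    exact integral_add (hint2 F a) (hint2 G a)
  · intro c F a
    simp only [hap, ContinuousMap.smul_apply, smul_eq_mul]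
    exact integral_const_mul _ _
  · intro F a h
    rw [hap]
    exact integral_nonneg h
  · intro F a h
    simp [hap, h]
  · intro F κ₀ a
    rw [hap, hap, ← hinv F κ₀ a]
    simp only [smul_smul, mul_comm]
  · intro F κ₀ a
    rw [hap, hap, ← hinv F κ₀ a]
    rfl
  · intro T M hM hMinv F
    let M' : C(A, ℝ) →L[ℝ] ℝ := M.mkContinuous 1 (fun F => by simpa using hM.abs_le_norm F)
    have h1 := M'.integral_comp_comm (hint F)
    have h2 : ∀ κ, M' (cur F κ) = M F := fun κ => hMinv κ F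
    simp only [h2] at h1
    have h3 : M' (∫ κ, cur F κ ∂m) = M (∫ κ, cur F κ ∂m) := rfl
    rw [← h3, ← h1]
    simp

variable {B : Type} [TopologicalSpace B] [CompactSpace B] [T2Space B]

theorem mean_unique' (p : C(A, B)) {T : Set A} (hT : IsClosed T)
    (hfib : ∀ a ∈ T, ∀ a' ∈ T, p a = p a' → ∃ κ : K, κ • a = a') {M M' : Fn A}
    (hM : IsMean T M) (hM' : IsMean T M') (hi : ∀ (κ : K) F, M (F.comp (shift κ)) = M F)
    (hi' : ∀ (κ : K) F, M' (F.comp (shift κ)) = M' F)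
    (hp : ∀ F : C(B, ℝ), M (F.comp p) = M' (F.comp p)) : M = M' := by
  obtain ⟨av, -, -, -, -, h5, -, h7⟩ := exists_avg (A := A) (K := K)
  ext F
  obtain ⟨Ψ, hΨ⟩ := descend hT p.continuous (av F) (by
    intro x hx y hy hxy
    obtain ⟨κ, rfl⟩ := hfib x hx y hy hxy
    rw [h5])
  rw [← h7 T M hM hi, ← h7 T M' hM' hi', hM.congr (G := Ψ.comp p) (fun a ha => (hΨ a ha).symm),
    hM'.congr (G := Ψ.comp p) (fun a ha => (hΨ a ha).symm), hp]

theorem mean_lift' (p : C(A, B)) {D : Type} [TopologicalSpace D] [CompactSpace D] [T2Space D]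
    (T : D → Set A) (hT : IsClosed {x : D × A | x.2 ∈ T x.1})
    (hinv : ∀ d, ∀ a ∈ T d, ∀ κ : K, κ • a ∈ T d) (hp : ∀ (κ : K) a, p (κ • a) = p a)
    (hfib : ∀ d, ∀ a ∈ T d, ∀ a' ∈ T d, p a = p a' → ∃ κ : K, κ • a = a')
    (N : D → Fn B) (hN : ∀ d, IsMean (p '' T d) (N d)) (hNc : ∀ F, Continuous fun d => N d F) :
    ∃ M : D → Fn A, (∀ d, IsMean (T d) (M d)) ∧
      (∀ d (κ : K) F, M d (F.comp (shift κ)) = M d F) ∧
      (∀ d (F : C(B, ℝ)), M d (F.comp p) = N d F) ∧ ∀ F, Continuous fun d => M d F := by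
  obtain ⟨av, h1, h2, h3, h4, h5, h6, -⟩ := exists_avg (A := A) (K := K)
  have hΨ : ∀ F : C(A, ℝ), ∃ Ψ : C(D × B, ℝ), ∀ d, ∀ a ∈ T d, Ψ (d, p a) = av F a := by
    intro F
    obtain ⟨Ψ, hΨ⟩ := descend hT (q := fun x : D × A => (x.1, p x.2)) (by fun_prop)
      ((av F).comp ContinuousMap.snd) (by
        rintro ⟨d, a⟩ hx ⟨d', a'⟩ hy hxy
        simp only [Prod.mk.injEq] at hxy
        obtain ⟨rfl, hxy⟩ := hxy
        obtain ⟨κ, rfl⟩ := hfib d a hx a' hy hxy
        simp [h5])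
    exact ⟨Ψ, fun d a ha => hΨ (d, a) ha⟩
  choose Ψ hΨ using hΨ
  have char : ∀ d F (G : C(B, ℝ)), (∀ a ∈ T d, G (p a) = av F a) →
      N d ((Ψ F).curry d) = N d G := by
    intro d F G hG
    refine (hN d).congr ?_
    rintro _ ⟨a, ha, rfl⟩
    rw [hG a ha, ← hΨ F d a ha]
    rfl
  let M : D → Fn A := fun d =>
    { toFun := fun F => N d ((Ψ F).curry d)
      map_add' := fun F G => by
        rw [← map_add]
        refine char d _ _ (fun a ha => ?_)
        rw [h1, ← hΨ F d a ha, ← hΨ G d a ha]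
        rfl
      map_smul' := fun c F => by
        rw [RingHom.id_apply, ← map_smul]
        refine char d _ _ (fun a ha => ?_)
        rw [h2, ← hΨ F d a ha]
        rfl }
  refine ⟨M, fun d => ⟨?_, ?_⟩, ?_, ?_, ?_⟩
  · exact (char d 1 1 (fun a _ => by rw [h4 _ _ (fun _ => rfl)]; rfl)).trans (hN d).1
  · intro F hF
    refine (hN d).2 _ ?_
    rintro _ ⟨a, ha, rfl⟩
    have := hΨ F d a ha
    rw [ContinuousMap.curry_apply, this]
    exact h3 F a fun κ => hF _ (hinv d a ha κ)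
  · intro d κ F
    refine char d _ _ (fun a ha => ?_)
    rw [h6, ← hΨ F d a ha]
    rfl
  · intro d F
    refine char d _ _ (fun a _ => ?_)
    rw [h4 _ _ (fun κ => by simp [hp])]
    rfl
  · intro F
    exact continuous_mean_family hN hNc (Ψ F).curry.continuous

theorem mean_unique (K₀ : Subgroup K) (hK : IsClosed (K₀ : Set K)) (p : C(A, B)) {T : Set A}
    (hT : IsClosed T)
    (hfib : ∀ a ∈ T, ∀ a' ∈ T, p a = p a' → ∃ κ ∈ K₀, κ • a = a') {M M' : Fn A}
    (hM : IsMean T M) (hM' : IsMean T M') (hi : ∀ κ ∈ K₀, ∀ F, M (F.comp (shift κ)) = M F)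
    (hi' : ∀ κ ∈ K₀, ∀ F, M' (F.comp (shift κ)) = M' F)
    (hp : ∀ F : C(B, ℝ), M (F.comp p) = M' (F.comp p)) : M = M' := by
  have : CompactSpace K₀ := isCompact_iff_compactSpace.1 hK.isCompact
  refine mean_unique' (K := K₀) p hT ?_ hM hM' (fun κ => hi κ.1 κ.2) (fun κ => hi' κ.1 κ.2) hp
  intro a ha a' ha' h
  obtain ⟨κ, h1, h2⟩ := hfib a ha a' ha' h
  exact ⟨⟨κ, h1⟩, h2⟩

theorem mean_lift (K₀ : Subgroup K) (hK : IsClosed (K₀ : Set K)) (p : C(A, B)) {D : Type}
    [TopologicalSpace D] [CompactSpace D] [T2Space D]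
    (T : D → Set A) (hT : IsClosed {x : D × A | x.2 ∈ T x.1})
    (hinv : ∀ d, ∀ a ∈ T d, ∀ κ ∈ K₀, κ • a ∈ T d) (hp : ∀ (κ : K) a, p (κ • a) = p a)
    (hfib : ∀ d, ∀ a ∈ T d, ∀ a' ∈ T d, p a = p a' → ∃ κ ∈ K₀, κ • a = a')
    (N : D → Fn B) (hN : ∀ d, IsMean (p '' T d) (N d)) (hNc : ∀ F, Continuous fun d => N d F) :
    ∃ M : D → Fn A, (∀ d, IsMean (T d) (M d)) ∧
      (∀ d, ∀ κ ∈ K₀, ∀ F, M d (F.comp (shift κ)) = M d F) ∧
      (∀ d (F : C(B, ℝ)), M d (F.comp p) = N d F) ∧ ∀ F, Continuous fun d => M d F := by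
  have : CompactSpace K₀ := isCompact_iff_compactSpace.1 hK.isCompact
  obtain ⟨M, h1, h2, h3, h4⟩ := mean_lift' (K := K₀) p T hT
    (fun d a ha κ => hinv d a ha κ.1 κ.2) (fun κ a => hp κ.1 a) (by
      intro d a ha a' ha' h
      obtain ⟨κ, h1, h2⟩ := hfib d a ha a' ha' h
      exact ⟨⟨κ, h1⟩, h2⟩) N hN hNc
  exact ⟨M, h1, fun d κ hκ F => h2 d ⟨κ, hκ⟩ F, h3, h4⟩

end Average

end Pool.Agent.H38Z.Nil
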