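import Pool.Agent.H38Z.Nil.Main

set_option autoImplicit false

namespace Pool.Agent.H38Z.Nil

open MeasureTheory Topology Filter CompactlySupported

theorem IsTranslation.isZ {X : Type} {C : Cubes X} (hX : IsNilspace C) {k : ℕ} {τ : X → X}
    (hτ : IsTranslation C (k + 1) τ) : IsZ C k τ := by
  intro y y'
  have h1 : (fun w : Q (k + 2) => if w 0 = true then y' else y) ∈ C (k + 2) :=
    (cube_fin hX).1 (cube_coord hX 0 y y')
  have h2 := hτ _ _ h1 (Finset.univ.erase 0) (fun _ => true) (by simp)
  refine ((cube_fin hX).2 h2).comp' hX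
    (fun w : Option (Fin (k + 1)) → Bool => fun i => w (finSuccEquiv (k + 1) i))
    (fun i => Or.inr (Or.inl ⟨_, fun _ => rfl⟩)) fun w => ?_
  have h3 : (∀ i ∈ (Finset.univ.erase 0 : Finset (Fin (k + 2))),
      w (finSuccEquiv (k + 1) i) = true) ↔ ∀ j, w (some j) = true := by
    constructor
    · intro h j
      simpa using h j.succ (by simp)
    · intro h i hi
      obtain ⟨j, rfl⟩ := Fin.exists_succ_eq.2 (Finset.ne_of_mem_erase hi)
      simpa using h j
  simp only [pc, h3, finSuccEquiv_zero]
  by_cases h4 : w none = true <;> by_cases h5 : ∀ j, w (some j) = true <;> simp [h4, h5]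

theorem simply_transitive (k : ℕ) (X : Type) [TopologicalSpace X] [CompactSpace X] [T2Space X]
    (C : Cubes X) (hnil : IsNilspace C) (hstep : IsStep C (k + 1))
    (hclosed : ∀ n, IsClosed (C n)) (x y : X) :
    Quot.mk (Sim C k) x = Quot.mk (Sim C k) y ↔
      ∃! τ : X ≃ₜ X, IsTranslation C (k + 1) τ ∧ τ x = y := by
  have : CNil C := ⟨hnil, hclosed⟩
  have : NilStep C k := ⟨hnil, hstep⟩
  rw [mk_eq_iff hnil]
  constructor
  · intro h
    obtain ⟨τ, hτ⟩ := Zg.exists_smul h
    refine ⟨Homeomorph.smul τ, ⟨τ.isTranslation, hτ⟩, fun σ hσ => ?_⟩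
    have := (hσ.1.isZ hnil).ext hnil hstep τ.2 (hσ.2.trans hτ.symm)
    ext z
    exact congrFun this z
  · rintro ⟨τ, ⟨h1, rfl⟩, -⟩
    exact (h1.isZ hnil).sim hnil x

theorem exists_measure {X : Type} [TopologicalSpace X] [CompactSpace X] [T2Space X]
    [MeasurableSpace X] [BorelSpace X] {m : Fn X} (hm : IsMean Set.univ m) :
    ∃ μ : Measure X, IsProbabilityMeasure μ ∧ ∀ F : C(X, ℝ), m F = ∫ x, F x ∂μ := by
  let Λ : C_c(X, ℝ) →ₚ[ℝ] ℝ :=
    { toFun g := m g.toContinuousMap
      map_add' g g' := map_add m _ _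
      map_smul' c g := map_smul m c _
      monotone' g g' hgg' := hm.mono fun a _ => hgg' a }
  have h : ∀ F : C(X, ℝ), m F = ∫ x, F x ∂(RealRMK.rieszMeasure Λ) := fun F =>
    (RealRMK.integral_rieszMeasure Λ ⟨F, HasCompactSupport.of_compactSpace _⟩).symm
  refine ⟨RealRMK.rieszMeasure Λ, ⟨?_⟩, h⟩
  have h1 := h 1
  rw [hm.1] at h1
  have h2 : (RealRMK.rieszMeasure Λ).real Set.univ = 1 := by
    rw [h1]
    exact ((integral_const (1 : ℝ)).trans (by simp)).symm
  rw [← ofReal_measureReal (measure_ne_top _ _), h2]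
  simp

theorem existsUnique_haar (k : ℕ) : ∀ (X : Type) [TopologicalSpace X] [CompactSpace X]
    [T2Space X] [SecondCountableTopology X] [Nonempty X] (C : Cubes X), IsNilspace C →
    IsStep C k → (∀ n, IsClosed (C n)) → ∃! μ : @Measure X (borel X), IsHaar k X C μ := by
  induction k with
  | zero =>
    intro X _ _ _ _ hX C hnil hstep _
    let : MeasurableSpace X := borel X
    obtain ⟨x₀⟩ := hX
    have hsub : ∀ x y : X, x = y := by
      intro x y
      have := hstep (fun _ => x) (by rw [hnil.ergodic]; trivial)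
        (fun w => if w 0 = true then y else x) (by rw [hnil.ergodic]; trivial) (by
          intro v hv
          rw [if_neg]
          intro h1
          apply hv
          funext j
          rw [show j = 0 from Fin.ext (by omega), h1])
      simpa using congrFun this (fun _ => true)
    refine ⟨Measure.dirac x₀, (inferInstance : IsProbabilityMeasure (Measure.dirac x₀)),
      fun ν hν => ?_⟩
    have : IsProbabilityMeasure ν := hν
    ext s _
    rcases s.eq_empty_or_nonempty with rfl | ⟨y, hy⟩
    · simp
    · rw [show s = Set.univ from Set.eq_univ_of_forall fun z => hsub y z ▸ hy]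
      simp
  | succ k ih =>
    intro X _ _ _ _ hX C hnil hstep hclosed
    have : CNil C := ⟨hnil, hclosed⟩
    have : NilStep C k := ⟨hnil, hstep⟩
    have hC := cnil_factor (C := C) (k := k)
    have := t2_factor (C := C) (k := k)
    have hq := isOpenQuotientMap_mk (C := C) (k := k)
    have : SecondCountableTopology (Quot (Sim C k)) :=
      hq.isQuotientMap.secondCountableTopology hq.isOpenMap
    have : Nonempty (Quot (Sim C k)) := hX.map (Quot.mk _)
    let : MeasurableSpace X := borel X
    have : BorelSpace X := ⟨rfl⟩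
    let : MeasurableSpace (Quot (Sim C k)) := borel _
    have : BorelSpace (Quot (Sim C k)) := ⟨rfl⟩
    obtain ⟨ν, hν, hν'⟩ := ih (Quot (Sim C k)) _ hC.nil (factor_step hnil k) hC.closed
    have := hν.prob
    have hN := (haarFn_of k _ _ ν (intFn ν) hν fun _ => rfl).mean
    obtain ⟨M, h1, h2, h3, -⟩ := mean_lift' (K := Zg C k) (mkC C k) (D := Unit)
      (fun _ => Set.univ) (by simp) (fun _ _ _ _ => trivial) (fun κ a => κ.mk_smul a)
      (fun _ a _ a' _ h => Zg.exists_smul ((mk_eq_iff hnil).1 h)) (fun _ => intFn ν)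
      (fun _ => by
        rw [Set.image_univ_of_surjective (f := mkC C k) hq.surjective]
        exact hN) (fun _ => continuous_const)
    obtain ⟨μ, hμ, hμ'⟩ := exists_measure (h1 ())
    have hmap : μ.map (Quot.mk (Sim C k)) = ν := by
      refine ext_of_forall_integral_eq_of_IsFiniteMeasure fun F => ?_
      rw [integral_map continuous_quot_mk.aemeasurable F.continuous.aestronglyMeasurable]
      exact (hμ' _).symm.trans (h3 () F.toContinuousMap)
    refine ⟨μ, ⟨hμ, fun τ hτ => ?_, hmap ▸ hν⟩, fun μ' hμ'' => ?_⟩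
    · refine ext_of_forall_integral_eq_of_IsFiniteMeasure fun F => ?_
      rw [integral_map τ.continuous.aemeasurable F.continuous.aestronglyMeasurable]
      exact (hμ' _).symm.trans
        ((h2 () ⟨τ, hτ.isZ hnil⟩ F.toContinuousMap).trans (hμ' F.toContinuousMap))
    · have := hμ''.prob
      have hH := haarFn_of (k + 1) X C μ' (intFn μ') hμ'' fun _ => rfl
      have h4 : intFn μ' = M () := by
        refine mean_unique' (K := Zg C k) (mkC C k) isClosed_univ
          (fun a _ a' _ h => Zg.exists_smul ((mk_eq_iff hnil).1 h)) hH.1 (h1 ())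
          (fun τ F => hH.2.1 (Homeomorph.smul τ) τ.isTranslation F) (h2 ()) fun F => ?_
        rw [h3 ()]
        change _ = ∫ x, F x ∂ν
        rw [← hν' _ hμ''.2.2,
          integral_map continuous_quot_mk.aemeasurable F.continuous.aestronglyMeasurable]
        rfl
      refine ext_of_forall_integral_eq_of_IsFiniteMeasure fun F => ?_
      exact (LinearMap.congr_fun h4 F.toContinuousMap).trans (hμ' F.toContinuousMap)

end Pool.Agent.H38Z.Nil
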