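import Pool.Agent.H38Z.Nil.Group
import Pool.Agent.H38Z.Nil.Mean

set_option autoImplicit false

namespace Pool.Agent.H38Z.Nil

open Function Topology

variable {X : Type} [TopologicalSpace X] {C : Cubes X} {k : ℕ}

theorem continuous_of_closed_graph {P Y : Type} [TopologicalSpace P] [TopologicalSpace Y]
    [CompactSpace Y] {f : P → Y} (hf : IsClosed {q : P × Y | f q.1 = q.2}) : Continuous f := by
  rw [continuous_iff_isClosed]
  intro s hs
  have : f ⁻¹' s = Prod.fst '' ({q : P × Y | f q.1 = q.2} ∩ Prod.snd ⁻¹' s) := by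
    ext x
    simp
  rw [this]
  exact isClosedMap_fst_of_compactSpace _ (hf.inter (hs.preimage continuous_snd))

/-- Nilspaces with closed cube sets. -/
class CNil (C : Cubes X) : Prop where
  nil : IsNilspace C
  closed : ∀ n, IsClosed (C n)

theorem isClosed_cube [h : CNil C] (ι : Type) [Fintype ι] : IsClosed {c | Cube C ι c} := by
  have : {c | Cube C ι c} = (fun (c : (ι → Bool) → X) (w : Q (Fintype.card ι)) =>
      c (fun i => w (Fintype.equivFin ι i))) ⁻¹' C _ := by
    ext c
    exact cube_iff_equiv h.nil (Fintype.equivFin ι)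
  rw [this]
  exact (h.closed _).preimage (by fun_prop)

/-- The space of cubes. -/
abbrev Cub (C : Cubes X) (ι : Type) : Type := {c : (ι → Bool) → X // Cube C ι c}

instance [CompactSpace X] [CNil C] (ι : Type) [Fintype ι] : CompactSpace (Cub C ι) :=
  isCompact_iff_compactSpace.1 (isClosed_cube (C := C) ι).isCompact

theorem continuous_pc {P : Type} [TopologicalSpace P] {a b c d : P → X} (ha : Continuous a)
    (hb : Continuous b) (hc : Continuous c) (hd : Continuous d) :
    Continuous fun p => pc k (a p) (b p) (c p) (d p) := by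
  refine continuous_pi fun w => ?_
  simp only [pc]
  split_ifs <;> assumption

theorem isClosed_rel [CNil C] {P : Type} [TopologicalSpace P] {a b c d : P → X}
    (ha : Continuous a) (hb : Continuous b) (hc : Continuous c) (hd : Continuous d) :
    IsClosed {p | Rel C k (a p) (b p) (c p) (d p)} :=
  (isClosed_cube (C := C) _).preimage (continuous_pc ha hb hc hd)

theorem isClosed_sim [h : CNil C] : IsClosed {p : X × X | Sim C k p.1 p.2} := by
  simp only [sim_iff h.nil]
  refine (isClosed_cube (C := C) _).preimage (f := fun p : X × X => basic (Fin (k + 1)) p.1 p.2)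
    (continuous_pi fun w => ?_)
  simp only [basic]
  split_ifs <;> fun_prop

instance : TopologicalSpace (Zg C k) := instTopologicalSpaceSubtype

instance [T2Space X] : T2Space (Zg C k) :=
  inferInstanceAs (T2Space {τ : X → X // IsZ C k τ})

theorem continuous_Zg_apply (x : X) : Continuous fun τ : Zg C k => τ.1 x :=
  (continuous_apply x).comp continuous_subtype_val

instance [CompactSpace X] [CNil C] : CompactSpace (Zg C k) := by
  have : IsClosed {τ : X → X | IsZ C k τ} := by
    simp only [IsZ, Set.ofPred_forall]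
    exact isClosed_iInter fun y => isClosed_iInter fun y' =>
      isClosed_rel continuous_const (continuous_apply y) continuous_const (continuous_apply y')
  exact isCompact_iff_compactSpace.1 this.isCompact

instance [CompactSpace X] [CNil C] [h : NilStep C k] : ContinuousSMul (Zg C k) X := by
  constructor
  rcases isEmpty_or_nonempty X with h1 | ⟨⟨x⟩⟩
  · exact continuous_of_discreteTopology
  apply continuous_of_closed_graph
  have : {q : (Zg C k × X) × X | q.1.1 • q.1.2 = q.2} =
      {q : (Zg C k × X) × X | Rel C k x (q.1.1.1 x) q.1.2 q.2} := by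
    ext ⟨⟨τ, y⟩, y'⟩
    exact ⟨fun h1 => (show τ.1 y = y' from h1) ▸ τ.2 x y, fun h1 => rel_unique h.nil h.step (τ.2 x y) h1⟩
  rw [this]
  exact isClosed_rel continuous_const ((continuous_Zg_apply x).comp (by fun_prop))
    (by fun_prop) (by fun_prop)

instance [CompactSpace X] [CNil C] [NilStep C k] : ContinuousMul (Zg C k) := by
  constructor
  refine continuous_induced_rng.2 (continuous_pi fun x => ?_)
  change Continuous fun p : Zg C k × Zg C k => p.1 • p.2 • x
  fun_prop

instance [CompactSpace X] [T2Space X] [CNil C] [NilStep C k] : IsTopologicalGroup (Zg C k) where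
  continuous_inv := by
    apply continuous_of_closed_graph
    have : {q : Zg C k × Zg C k | q.1⁻¹ = q.2} = {q : Zg C k × Zg C k | q.1 * q.2 = 1} := by
      ext ⟨τ, σ⟩
      exact inv_eq_iff_mul_eq_one
    rw [this]
    exact isClosed_eq (by fun_prop) continuous_const

omit [TopologicalSpace X] in
theorem mem_Esub_iff [NilStep C k] {ι : Type} [Fintype ι] {κ : (ι → Bool) → Zg C k} :
    κ ∈ Esub C k ι ↔ ∀ d, Cube C ι d → Cube C ι (κ • d) := by
  refine ⟨fun h d hd => (h d).1 hd, fun h d => ⟨h d, fun hd => ?_⟩⟩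
  exact (fibre hd (h _ hd) d).2 hd

theorem isClosed_Esub [CompactSpace X] [CNil C] [NilStep C k] (ι : Type) [Fintype ι] :
    IsClosed (Esub C k ι : Set ((ι → Bool) → Zg C k)) := by
  have : (Esub C k ι : Set ((ι → Bool) → Zg C k)) =
      ⋂ d : Cub C ι, {κ | Cube C ι (κ • d.1)} := by
    ext κ
    simp [mem_Esub_iff]
  rw [this]
  refine isClosed_iInter fun d => (isClosed_cube (C := C) ι).preimage
    (f := fun κ : (ι → Bool) → Zg C k => κ • d.1) (continuous_pi fun v => ?_)
  simp only [Pi.smul_apply']
  fun_prop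

instance [CompactSpace X] [CNil C] [NilStep C k] (ι : Type) [Fintype ι] :
    CompactSpace (Esub C k ι) :=
  isCompact_iff_compactSpace.1 (isClosed_Esub (C := C) (k := k) ι).isCompact

noncomputable instance [NilStep C k] (ι : Type) : MulAction (Esub C k ι) (Cub C ι) where
  smul κ c := ⟨κ.1 • c.1, (κ.2 c.1).1 c.2⟩
  one_smul c := Subtype.ext (one_smul _ c.1)
  mul_smul a b c := Subtype.ext (mul_smul a.1 b.1 c.1)

omit [TopologicalSpace X] in
theorem Esub.smul_apply [NilStep C k] {ι : Type} (κ : Esub C k ι) (c : Cub C ι) (v : ι → Bool) :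
    (κ • c).1 v = κ.1 v • c.1 v := rfl

instance [CompactSpace X] [CNil C] [NilStep C k] (ι : Type) :
    ContinuousSMul (Esub C k ι) (Cub C ι) := by
  constructor
  refine continuous_induced_rng.2 (continuous_pi fun v => ?_)
  change Continuous fun p : Esub C k ι × Cub C ι => p.1.1 v • p.2.1 v
  exact ((continuous_apply v).comp (continuous_subtype_val.comp continuous_fst)).smul
    ((continuous_apply v).comp (continuous_subtype_val.comp continuous_snd))

theorem isOpenQuotientMap_mk [CompactSpace X] [CNil C] [h : NilStep C k] :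
    IsOpenQuotientMap (Quot.mk (Sim C k)) := by
  refine ⟨Quot.mk_surjective, continuous_quot_mk, fun U hU => ?_⟩
  rw [← isQuotientMap_quot_mk.isOpen_preimage]
  have : Quot.mk (Sim C k) ⁻¹' (Quot.mk (Sim C k) '' U) = ⋃ τ : Zg C k, (τ • ·) ⁻¹' U := by
    ext x
    simp only [Set.mem_preimage, Set.mem_image, Set.mem_iUnion]
    constructor
    · rintro ⟨y, hy, hxy⟩
      obtain ⟨τ, rfl⟩ := Zg.exists_smul ((mk_eq_iff h.nil).1 hxy.symm)
      exact ⟨τ, hy⟩
    · rintro ⟨τ, hτ⟩
      exact ⟨_, hτ, τ.mk_smul x⟩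
  rw [this]
  exact isOpen_iUnion fun τ => hU.preimage (continuous_const_smul τ)

theorem t2_factor [CompactSpace X] [CNil C] [h : NilStep C k] : T2Space (Quot (Sim C k)) := by
  rw [t2Space_iff_of_isOpenQuotientMap isOpenQuotientMap_mk]
  simp only [mk_eq_iff h.nil]
  exact isClosed_sim

theorem cnil_factor [CompactSpace X] [h' : CNil C] [h : NilStep C k] :
    CNil (factorCubes C k) := by
  have := t2_factor (C := C) (k := k)
  refine ⟨factor_nilspace h.nil k, fun n => ?_⟩
  have h1 : factorCubes C k n = (fun d : Q n → X => Quot.mk (Sim C k) ∘ d) '' C n := by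
    ext c
    simp only [factorCubes, Set.mem_ofPred_eq, Set.mem_image, eq_comm]
  rw [h1]
  refine ((h'.closed n).isCompact.image (continuous_pi fun v => ?_)).isClosed
  exact continuous_quot_mk.comp (continuous_apply v)

/-- The projection of cubes. -/
def proj (C : Cubes X) (k : ℕ) (ι : Type) : C(Cub C ι, Cub (factorCubes C k) ι) :=
  ⟨fun c => ⟨Quot.mk _ ∘ c.1, cube_factor_iff.2 ⟨c.1, c.2, rfl⟩⟩,
    by
      refine Continuous.subtype_mk (continuous_pi fun v => ?_) _
      exact continuous_quot_mk.comp ((continuous_apply v).comp continuous_subtype_val)⟩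

theorem proj_apply {ι : Type} (c : Cub C ι) (v : ι → Bool) :
    (proj C k ι c).1 v = Quot.mk _ (c.1 v) := rfl

theorem proj_surjective (ι : Type) : Surjective (proj C k ι) := by
  rintro ⟨c, hc⟩
  obtain ⟨d, hd, rfl⟩ := cube_factor_iff.1 hc
  exact ⟨⟨d, hd⟩, rfl⟩

theorem proj_smul [NilStep C k] {ι : Type} (κ : Esub C k ι) (c : Cub C ι) :
    proj C k ι (κ • c) = proj C k ι c :=
  Subtype.ext (funext fun _ => Zg.mk_smul _ _)

theorem exists_of_proj [NilStep C k] {ι : Type} [Fintype ι] {c d : Cub C ι}
    (h : proj C k ι c = proj C k ι d) : ∃ κ : Esub C k ι, κ • c = d := by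
  obtain ⟨κ, h1, h2⟩ := exists_Esub (k := k) c.2 d.2 (fun v => congrFun (congrArg Subtype.val h) v)
  exact ⟨⟨κ, h1⟩, Subtype.ext h2⟩

/-- Composition with a simple map. -/
def pull [h : CNil C] {ι : Type} [Fintype ι] (φ : (ι → Bool) → (ι → Bool)) (hφ : Simple φ) :
    C(Cub C ι, Cub C ι) :=
  ⟨fun c => ⟨c.1 ∘ φ, c.2.comp h.nil hφ⟩,
    by
      refine Continuous.subtype_mk (continuous_pi fun v => ?_) _
      exact (continuous_apply (φ v)).comp continuous_subtype_val⟩

theorem pull_apply [CNil C] {ι : Type} [Fintype ι] (φ : (ι → Bool) → (ι → Bool))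
    (hφ : Simple φ) (c : Cub C ι) (v : ι → Bool) : (pull φ hφ c).1 v = c.1 (φ v) := rfl

/-- Evaluation at a vertex. -/
def ev (C : Cubes X) {ι : Type} (v : ι → Bool) : C(Cub C ι, X) :=
  ⟨fun c => c.1 v, (continuous_apply v).comp continuous_subtype_val⟩

@[simp] theorem ev_apply {ι : Type} (v : ι → Bool) (c : Cub C ι) : ev C v c = c.1 v := rfl

/-- A translation acts on cubes. -/
def tr [h : CNil C] {ι : Type} [Nonempty ι] (α : C(X, X)) (hα : IsTranslation C 1 α) :
    C(Cub C ι, Cub C ι) :=
  ⟨fun c => ⟨α ∘ c.1, hα.cube h.nil c.2⟩,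
    by
      refine Continuous.subtype_mk (continuous_pi fun v => ?_) _
      exact α.continuous.comp ((continuous_apply v).comp continuous_subtype_val)⟩

theorem tr_apply [CNil C] {ι : Type} [Nonempty ι] (α : C(X, X)) (hα : IsTranslation C 1 α)
    (c : Cub C ι) (v : ι → Bool) : (tr α hα c).1 v = α (c.1 v) := rfl

end Pool.Agent.H38Z.Nil
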